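import Pool.Agent.H91.VF.PCat

/-!
# L-equivalence gives an isomorphism of transcendental lattices with their duals
-/

namespace H91.VF

open CategoryTheory
open scoped TensorProduct

namespace Coh

variable (X : Coh)

/-- `k T_X^* ∩ T_X`. -/
noncomputable def S (k : ℤ) : Submodule ℤ X.V where
  carrier := {t | t ∈ X.tr ∧ ∀ t' ∈ X.tr, k ∣ X.q t t'}
  add_mem' := by
    rintro a b ⟨ha, ha'⟩ ⟨hb, hb'⟩
    refine ⟨X.tr.add_mem ha hb, fun t' ht' => ?_⟩
    rw [map_add, LinearMap.add_apply]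
    exact dvd_add (ha' t' ht') (hb' t' ht')
  zero_mem' := ⟨X.tr.zero_mem, fun t' _ => by simp⟩
  smul_mem' := by
    rintro c x ⟨hx, hx'⟩
    refine ⟨X.tr.smul_mem c hx, fun t' ht' => ?_⟩
    rw [map_smul, LinearMap.smul_apply, smul_eq_mul]
    exact Dvd.dvd.mul_left (hx' t' ht') c

theorem mem_S {k : ℤ} {t : X.V} : t ∈ X.S k ↔ t ∈ X.tr ∧ ∀ t' ∈ X.tr, k ∣ X.q t t' := Iff.rfl

/-- The object of `X`. -/
noncomputable def P : PObj := PObj.ofSub X.V X.hodge.H X.tr X.S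

theorem bc_functional (a : X.V) (x : ℂ ⊗[ℤ] X.V) :
    (X.q a).baseChange ℂ x = 0 ↔ X.q.baseChange ℂ ((1 : ℂ) ⊗ₜ[ℤ] a) x = 0 := by
  have h : ∀ z : ℂ ⊗[ℤ] X.V, TensorProduct.AlgebraTensorModule.rid ℤ ℂ ℂ
      ((X.q a).baseChange ℂ z) = X.q.baseChange ℂ ((1 : ℂ) ⊗ₜ[ℤ] a) z := by
    intro z
    induction z using TensorProduct.induction_on with
    | zero => simp
    | tmul c v => simp
    | add x y hx hy => simp only [map_add, hx, hy]
  rw [← h x, LinearEquiv.map_eq_zero_iff]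

theorem trF_eq : trF X.hodge.H = X.tr := by
  ext v
  constructor
  · intro hv w hw
    apply hv (X.q w)
    intro p hp x hx
    rw [X.bc_functional]
    exact X.orth 2 p _ _ hw hx (by omega)
  · intro hv l hl
    obtain ⟨a, ha⟩ := X.unimod.2 l
    have hla : l = X.q a := by
      ext w
      exact (ha w).symm
    have haH : a ∈ X.hdg := by
      apply X.hodge_of_orth
      intro x hx
      rw [← X.bc_functional, ← hla]
      exact hl 3 (by norm_num) x hx
    rw [hla]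
    exact hv a haH

theorem hdgF_eq : hdgF X.hodge.H = X.hdg := rfl

theorem subF_eq (k : ℤ) : subF X.hodge.H k = X.S k := by
  ext t
  constructor
  · rintro ⟨h1, h2⟩
    have h1 : t ∈ trF X.hodge.H := h1
    rw [X.trF_eq] at h1
    refine ⟨h1, fun t' ht' => ?_⟩
    obtain ⟨_, ⟨v, rfl⟩, h, hh, rfl⟩ := Submodule.mem_sup.mp h2
    have h3 : X.q h t' = 0 := ht' h hh
    rw [map_add, LinearMap.add_apply, h3, add_zero, LinearMap.lsmul_apply, map_smul,
      LinearMap.smul_apply, smul_eq_mul]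
    exact dvd_mul_right k _
  · rintro ⟨h1, h2⟩
    refine ⟨by rw [X.trF_eq]; exact h1, ?_⟩
    by_cases hk : k = 0
    · subst hk
      have h3 : t ∈ X.hdg := X.mem_hdg_of_orth fun t' ht' => zero_dvd_iff.mp (h2 t' ht')
      have : t ∈ hdgF X.hodge.H := h3
      exact Submodule.mem_sup_right this
    · let l : X.tr →ₗ[ℤ] ℤ :=
        { toFun := fun t' => X.q t t' / k
          map_add' := by
            intro a b
            rw [Submodule.coe_add, map_add, Int.add_ediv_of_dvd_left (h2 a a.2)]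
          map_smul' := by
            intro c a
            rw [Submodule.coe_smul, map_smul, smul_eq_mul, RingHom.id_apply, smul_eq_mul,
              Int.mul_ediv_assoc c (h2 a a.2)] }
      obtain ⟨v, hv⟩ := X.exists_repr l
      have h3 : t - k • v ∈ X.hdg := by
        apply X.mem_hdg_of_orth
        intro t' ht'
        have h4 := hv ⟨t', ht'⟩
        have h5 : l ⟨t', ht'⟩ = X.q t t' / k := rfl
        rw [map_sub, LinearMap.sub_apply, map_smul, LinearMap.smul_apply, h4, h5, smul_eq_mul,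
          Int.mul_ediv_cancel' (h2 t' ht'), sub_self]
      have h6 : t = LinearMap.lsmul ℤ X.V k v + (t - k • v) := by
        rw [LinearMap.lsmul_apply]; abel
      show t ∈ LinearMap.range (LinearMap.lsmul ℤ X.V k) ⊔ hdgF X.hodge.H
      rw [h6]
      exact Submodule.add_mem_sup ⟨v, rfl⟩ h3

theorem of_eq : PObj.of X.V X.hodge.H = X.P := by
  have h : subF X.hodge.H = X.S := funext X.subF_eq
  unfold PObj.of P
  rw [h, X.trF_eq]

end Coh

/-- A homomorphism killing `H^{3,1}` is zero. -/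
theorem eq_zero_of_omega {X Y : Coh} (f : X.tr →ₗ[ℤ] Y.tr)
    (hf : ∀ τ, X.incl τ ∈ X.hodge.H 3 → f.baseChange ℂ τ = 0) : f = 0 := by
  ext t
  have key : ∀ y ∈ Y.tr, Y.q (f t) y = 0 := by
    intro y hy
    let l : X.tr →ₗ[ℤ] ℤ := (Y.q.flip y) ∘ₗ Y.tr.subtype ∘ₗ f
    obtain ⟨v, hv⟩ := X.exists_repr l
    have hl : ∀ s : X.tr, l s = Y.q (f s) y := fun s => rfl
    have hvH : v ∈ X.hdg := by
      apply X.hodge_of_orth
      intro x hx
      obtain ⟨τ, rfl⟩ := X.exists_incl hx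
      rw [bc_symm _ X.symm]
      have h1 := bc_ext_left X.q Y.q X.tr.subtype (Y.tr.subtype ∘ₗ f) v y (fun a => by
        rw [X.symm]
        exact (hv a).trans (hl a)) τ
      have h2 : X.incl τ = X.tr.subtype.baseChange ℂ τ := rfl
      rw [h2, h1, LinearMap.baseChange_comp, LinearMap.comp_apply, hf τ hx, map_zero, map_zero,
        LinearMap.zero_apply]
    have h3 := hv t
    rw [hl] at h3
    rw [← h3]
    exact t.2 v hvH
  have h4 : (f t : Y.V) = 0 := Y.eq_zero_of_mem (Y.mem_hdg_of_orth key) (f t).2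
  simpa using h4

theorem hom_hodge {X Y : Coh} (f : X.P ⟶ Y.P) : IsHodge X Y f.1 := fun p x hx => f.2.1 p x hx

theorem hom_dual {X Y : Coh} (f : X.P ⟶ Y.P) (k : ℤ) (t : X.tr)
    (ht : ∀ t' : X.tr, k ∣ X.q t t') (t' : Y.tr) :
    k ∣ Y.q ((show X.tr →ₗ[ℤ] Y.tr from f.1) t) t' := by
  have h := f.2.2 k t ⟨t.2, fun s hs => ht ⟨s, hs⟩⟩
  exact h.2 t' t'.2

/-- Composition has no zero divisors. -/
theorem comp_eq_zero {X Y Z : Coh} (f : X.P ⟶ Y.P) (g : Y.P ⟶ Z.P) (h : f ≫ g = 0) :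
    f = 0 ∨ g = 0 := by
  by_cases hf : ∀ τ, X.incl τ ∈ X.hodge.H 3 →
      (show X.tr →ₗ[ℤ] Y.tr from f.1).baseChange ℂ τ = 0
  · left
    exact PObj.hom_ext (eq_zero_of_omega (X := X) (Y := Y) f.1 hf)
  · right
    push Not at hf
    obtain ⟨τ, hτ, hne⟩ := hf
    have h1 : Y.incl ((show X.tr →ₗ[ℤ] Y.tr from f.1).baseChange ℂ τ) ∈ Y.hodge.H 3 :=
      hom_hodge f 3 τ hτ
    obtain ⟨ω, _, _, hspan⟩ := Y.exists_omega
    obtain ⟨c, hc⟩ := hspan _ h1
    have hc0 : c ≠ 0 := by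
      rintro rfl
      rw [zero_smul] at hc
      apply hne
      apply Y.incl_injective
      rw [hc, map_zero]
    apply PObj.hom_ext
    apply eq_zero_of_omega (X := Y) (Y := Z) g.1
    intro σ hσ
    obtain ⟨d, hd⟩ := hspan _ hσ
    have h2 : σ = (d * c⁻¹) • (show X.tr →ₗ[ℤ] Y.tr from f.1).baseChange ℂ τ := by
      apply Y.incl_injective
      rw [map_smul, hc, hd, smul_smul, mul_assoc, inv_mul_cancel₀ hc0, mul_one]
    rw [h2, map_smul]
    have h3 : (f ≫ g).1 = 0 := by rw [h]; rfl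
    have h4 : (show Y.tr →ₗ[ℤ] Z.tr from g.1).baseChange ℂ
        ((show X.tr →ₗ[ℤ] Y.tr from f.1).baseChange ℂ τ) = 0 := by
      rw [← LinearMap.comp_apply, ← LinearMap.baseChange_comp]
      have h5 : (show Y.tr →ₗ[ℤ] Z.tr from g.1) ∘ₗ (show X.tr →ₗ[ℤ] Y.tr from f.1) = 0 := h3
      rw [h5, LinearMap.baseChange_zero, LinearMap.zero_apply]
    rw [h4, smul_zero]

/-- `End` is commutative. -/
theorem end_comm {X : Coh} (f g : X.P ⟶ X.P) : f ≫ g = g ≫ f := by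
  rw [← sub_eq_zero]
  apply PObj.hom_ext
  apply eq_zero_of_omega (X := X) (Y := X)
  intro τ hτ
  obtain ⟨ω, _, _, hspan⟩ := X.exists_omega
  obtain ⟨c, hc⟩ := hspan _ hτ
  by_cases hτ0 : τ = 0
  · rw [hτ0, map_zero]
  have hc0 : c ≠ 0 := by
    rintro rfl
    rw [zero_smul] at hc
    apply hτ0
    apply X.incl_injective
    rw [hc, map_zero]
  have hsp : ∀ σ, X.incl σ ∈ X.hodge.H 3 → ∃ a : ℂ, σ = a • τ := by
    intro σ hσ
    obtain ⟨d, hd⟩ := hspan _ hσ
    refine ⟨d * c⁻¹, ?_⟩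
    apply X.incl_injective
    rw [map_smul, hc, hd, smul_smul, mul_assoc, inv_mul_cancel₀ hc0, mul_one]
  obtain ⟨a, ha⟩ := hsp _ (hom_hodge f 3 τ hτ)
  obtain ⟨b, hb⟩ := hsp _ (hom_hodge g 3 τ hτ)
  let f' : X.tr →ₗ[ℤ] X.tr := f.1
  let g' : X.tr →ₗ[ℤ] X.tr := g.1
  show (g' ∘ₗ f' - f' ∘ₗ g').baseChange ℂ τ = 0
  have ha' : f'.baseChange ℂ τ = a • τ := ha
  have hb' : g'.baseChange ℂ τ = b • τ := hb
  rw [LinearMap.baseChange_sub, LinearMap.sub_apply, LinearMap.baseChange_comp,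
    LinearMap.baseChange_comp, LinearMap.comp_apply, LinearMap.comp_apply, ha', hb', map_smul,
    map_smul, ha', hb', smul_smul, smul_smul, mul_comm, sub_self]

theorem id_ne_zero (X : Coh) : (𝟙 X.P : X.P ⟶ X.P) ≠ 0 := by
  intro h
  obtain ⟨ω, hω, hω0, _⟩ := X.exists_omega
  obtain ⟨τ, rfl⟩ := X.exists_incl hω
  apply hω0
  have h1 : (LinearMap.id : X.tr →ₗ[ℤ] X.tr) = 0 := congrArg Subtype.val h
  have h2 : (LinearMap.id : X.tr →ₗ[ℤ] X.tr).baseChange ℂ τ = 0 := by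
    rw [h1, LinearMap.baseChange_zero, LinearMap.zero_apply]
  rw [LinearMap.baseChange_id, LinearMap.id_apply] at h2
  rw [h2, map_zero]

theorem mem_O_iff {X : Coh} (e : X.tr →ₗ[ℤ] X.tr) :
    e ∈ X.O ↔ e ∈ PObj.homS X.P X.P := by
  constructor
  · rintro ⟨h1, h2⟩
    refine ⟨fun p x hx => h1 p x hx, ?_⟩
    intro k x hx
    refine ⟨(e x).2, fun t' ht' => ?_⟩
    exact h2 k x (fun s => hx.2 s s.2) ⟨t', ht'⟩
  · rintro ⟨h1, h2⟩
    refine ⟨fun p x hx => h1 p x hx, ?_⟩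
    intro k t ht t'
    exact (h2 k t ⟨t.2, fun s hs => ht ⟨s, hs⟩⟩).2 t' t'.2

/-- Principal ideals. -/
theorem principal {X : Coh} (hP : IsPrincipalIdealRing X.O) (I : AddSubgroup (X.P ⟶ X.P))
    (hI : ∀ x ∈ I, ∀ y, x ≫ y ∈ I) : ∃ g ∈ I, ∀ x ∈ I, ∃ y, x = g ≫ y := by
  let toH : X.O → (X.P ⟶ X.P) := fun e => ⟨e.1, (mem_O_iff e.1).mp e.2⟩
  let J : Ideal X.O :=
    { carrier := {e | toH e ∈ I}
      add_mem' := by
        intro a b ha hb
        exact I.add_mem ha hb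
      zero_mem' := I.zero_mem
      smul_mem' := by
        intro c e he
        exact hI _ he (toH c) }
  obtain ⟨g, hg⟩ := (hP.principal J).principal
  have hgJ : g ∈ J := by rw [hg]; exact Submodule.mem_span_singleton_self g
  refine ⟨toH g, hgJ, ?_⟩
  intro x hx
  have hx' : (⟨x.1, (mem_O_iff _).mpr x.2⟩ : X.O) ∈ J := hx
  rw [hg, Submodule.mem_span_singleton] at hx'
  obtain ⟨y, hy⟩ := hx'
  refine ⟨toH y, ?_⟩
  apply PObj.hom_ext
  exact (congrArg Subtype.val hy).symm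

/-- From a stable isomorphism to an isomorphism of transcendental lattices with duals. -/
theorem iso_of_stable {X Y : Coh} (h : StablyIso X.hodge Y.hodge)
    (hP : IsPrincipalIdealRing X.O) :
    ∃ φ : X.tr ≃ₗ[ℤ] Y.tr, IsHodge X Y φ.toLinearMap ∧ IsHodge Y X φ.symm.toLinearMap ∧
      (∀ (k : ℤ) (t : X.tr), (∀ t' : X.tr, k ∣ X.q t t') → ∀ t' : Y.tr, k ∣ Y.q (φ t) t') ∧
      (∀ (k : ℤ) (t : Y.tr), (∀ t' : Y.tr, k ∣ Y.q t t') → ∀ t' : X.tr,
        k ∣ X.q (φ.symm t) t') := by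
  obtain ⟨U, i1, i2, i3, K, _, g, hg⟩ := h
  have h1 : FHom (sumFam X.hodge.H K.H) (sumFam Y.hodge.H K.H) g.toLinearMap := by
    intro p x hx
    have : g.toLinearMap.baseChange ℂ x ∈ (X.hodge.sumH K p).map (g.toLinearMap.baseChange ℂ) :=
      ⟨x, hx, rfl⟩
    rw [hg p] at this
    exact this
  have h2 : FHom (sumFam Y.hodge.H K.H) (sumFam X.hodge.H K.H) g.symm.toLinearMap := by
    intro p x hx
    have h3 : x ∈ (X.hodge.sumH K p).map (g.toLinearMap.baseChange ℂ) := by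
      rw [hg p]
      exact hx
    obtain ⟨z, hz, rfl⟩ := h3
    rw [← LinearMap.comp_apply, ← LinearMap.baseChange_comp]
    have h4 : g.symm.toLinearMap ∘ₗ g.toLinearMap = LinearMap.id := by
      ext x <;> simp
    rw [h4, LinearMap.baseChange_id]
    exact hz
  have m : MatIso (PObj.of X.V X.hodge.H) (PObj.of Y.V Y.hodge.H) (PObj.of U K.H) :=
    matIso g h1 h2
  rw [X.of_eq, Y.of_eq] at m
  obtain ⟨f, f', hff', hf'f⟩ := m.exists_iso (PObj.finite_hom _ _) (PObj.finite_hom _ _)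
    end_comm (id_ne_zero X) comp_eq_zero comp_eq_zero (principal hP)
  let F : X.tr →ₗ[ℤ] Y.tr := f.1
  let F' : Y.tr →ₗ[ℤ] X.tr := f'.1
  have e1 : F' ∘ₗ F = LinearMap.id := congrArg Subtype.val hff'
  have e2 : F ∘ₗ F' = LinearMap.id := congrArg Subtype.val hf'f
  refine ⟨LinearEquiv.ofLinearMap F F' e2 e1, ?_, ?_, ?_, ?_⟩
  · exact hom_hodge f
  · exact hom_hodge f'
  · exact hom_dual f
  · exact hom_dual f'

end H91.VF
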