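import Mathlib

/-!
# Cancellation in a preadditive category with finitely generated Hom groups

If `A ⊕ U ≅ B ⊕ U` (given by the eight matrix entries of the isomorphism and its inverse),
then `𝟙 A` is a sum of composites `A ⟶ B ⟶ A`.
-/

namespace H91.VF

open CategoryTheory

section fg

/-- A proper submodule of a finitely generated abelian group stays proper after adding `n G`
for a suitable nonzero integer `n`. -/
theorem exists_int {G : Type*} [AddCommGroup G] [Module.Finite ℤ G] (K : Submodule ℤ G)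
    (hK : K ≠ ⊤) : ∃ n : ℤ, n ≠ 0 ∧ ∃ K' : Submodule ℤ G, K ≤ K' ∧ K' ≠ ⊤ ∧
      (∀ x : G, n • x ∈ K') ∧ (∀ x : G, x ∈ K' ↔ ∃ k ∈ K, ∃ y : G, x = k + n • y) := by
  obtain ⟨M, hM, hKM⟩ := (eq_top_or_exists_le_coatom K).resolve_left hK
  have hs : IsSimpleModule ℤ (G ⧸ M) := isSimpleModule_iff_isCoatom.mpr hM
  obtain ⟨I, hI, ⟨e⟩⟩ := isSimpleModule_iff_quot_maximal.mp hs
  have hI0 : I ≠ ⊥ := by
    intro h
    have := (Ring.isField_iff_maximal_bot (R := ℤ)).mpr (h ▸ hI)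
    exact Int.not_isField this
  obtain ⟨n, hn, hn0⟩ := Submodule.exists_mem_ne_zero_of_ne_bot hI0
  refine ⟨n, hn0, K ⊔ LinearMap.range (LinearMap.lsmul ℤ G n), le_sup_left, ?_, ?_, ?_⟩
  · intro h
    apply hM.1
    rw [eq_top_iff, ← h]
    refine sup_le hKM ?_
    rintro _ ⟨x, rfl⟩
    rw [← Submodule.Quotient.mk_eq_zero]
    apply e.injective
    rw [map_zero]
    simp only [LinearMap.lsmul_apply, Submodule.Quotient.mk_smul, map_smul]
    obtain ⟨y, hy⟩ := Submodule.Quotient.mk_surjective I (e (Submodule.Quotient.mk x))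
    rw [← hy, ← Submodule.Quotient.mk_smul, Submodule.Quotient.mk_eq_zero, smul_eq_mul]
    exact I.mul_mem_right _ hn
  · intro x
    exact (le_sup_right : _ ≤ K ⊔ _) ⟨x, rfl⟩
  · intro x
    rw [Submodule.mem_sup]
    constructor
    · rintro ⟨k, hk, _, ⟨y, rfl⟩, rfl⟩
      exact ⟨k, hk, y, rfl⟩
    · rintro ⟨k, hk, y, rfl⟩
      exact ⟨k, hk, _, ⟨y, rfl⟩, rfl⟩

/-- A subgroup containing `n G`, `n ≠ 0`, has finite index. -/
theorem index_ne_zero {G : Type*} [AddCommGroup G] [Module.Finite ℤ G] (K : AddSubgroup G)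
    (n : ℤ) (hn : n ≠ 0) (h : ∀ x : G, n • x ∈ K) : K.index ≠ 0 := by
  have hf : Finite (G ⧸ K.toIntSubmodule) := by
    apply Module.finite_of_fg_torsion
    intro x
    obtain ⟨y, rfl⟩ := Submodule.Quotient.mk_surjective _ x
    refine ⟨⟨n, mem_nonZeroDivisors_of_ne_zero hn⟩, ?_⟩
    rw [Submonoid.mk_smul, ← Submodule.Quotient.mk_smul, Submodule.Quotient.mk_eq_zero]
    exact h y
  have hf2 : Finite (G ⧸ K) := hf
  exact Nat.card_pos.ne'

end fg

universe v u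

variable {C : Type u} [Category.{v} C] [Preadditive C]

/-- The eight matrix entries of an isomorphism `A ⊕ U ≅ B ⊕ U`. -/
structure MatIso (A B U : C) where
  a : A ⟶ B
  b : U ⟶ B
  c : A ⟶ U
  d : U ⟶ U
  a' : B ⟶ A
  b' : U ⟶ A
  c' : B ⟶ U
  d' : U ⟶ U
  h11 : a ≫ a' + c ≫ b' = 𝟙 A
  h12 : a ≫ c' + c ≫ d' = 0
  h21 : b ≫ a' + d ≫ b' = 0
  h22 : b ≫ c' + d ≫ d' = 𝟙 U
  k11 : a' ≫ a + c' ≫ b = 𝟙 B
  k12 : a' ≫ c + c' ≫ d = 0
  k21 : b' ≫ a + d' ≫ b = 0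
  k22 : b' ≫ c + d' ≫ d = 𝟙 U

/-- Morphisms `A ⟶ V` all of whose composites with `V ⟶ A` lie in `K`. -/
def Rad {A : C} (K : AddSubgroup (A ⟶ A)) (V : C) : AddSubgroup (A ⟶ V) where
  carrier := {f | ∀ g : V ⟶ A, f ≫ g ∈ K}
  add_mem' := by
    intro f f' hf hf' g
    rw [Preadditive.add_comp]
    exact K.add_mem (hf g) (hf' g)
  zero_mem' := by
    intro g
    rw [Limits.zero_comp]
    exact K.zero_mem
  neg_mem' := by
    intro f hf g
    rw [Preadditive.neg_comp]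
    exact K.neg_mem (hf g)

theorem mem_Rad {A : C} {K : AddSubgroup (A ⟶ A)} {V : C} {f : A ⟶ V} :
    f ∈ Rad K V ↔ ∀ g : V ⟶ A, f ≫ g ∈ K := Iff.rfl

/-- The isomorphism on Hom groups induced by `MatIso`. -/
def MatIso.homEquiv {A B U : C} (m : MatIso A B U) :
    ((A ⟶ A) × (A ⟶ U)) ≃+ ((A ⟶ B) × (A ⟶ U)) where
  toFun x := (x.1 ≫ m.a + x.2 ≫ m.b, x.1 ≫ m.c + x.2 ≫ m.d)
  invFun x := (x.1 ≫ m.a' + x.2 ≫ m.b', x.1 ≫ m.c' + x.2 ≫ m.d')
  left_inv := by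
    rintro ⟨x, y⟩
    ext
    · simp only [Preadditive.add_comp, Category.assoc]
      calc _ = x ≫ (m.a ≫ m.a' + m.c ≫ m.b') + y ≫ (m.b ≫ m.a' + m.d ≫ m.b') := by
            simp only [Preadditive.comp_add]; abel
        _ = x := by rw [m.h11, m.h21]; simp
    · simp only [Preadditive.add_comp, Category.assoc]
      calc _ = x ≫ (m.a ≫ m.c' + m.c ≫ m.d') + y ≫ (m.b ≫ m.c' + m.d ≫ m.d') := by
            simp only [Preadditive.comp_add]; abel
        _ = y := by rw [m.h12, m.h22]; simp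
  right_inv := by
    rintro ⟨x, y⟩
    ext
    · simp only [Preadditive.add_comp, Category.assoc]
      calc _ = x ≫ (m.a' ≫ m.a + m.c' ≫ m.b) + y ≫ (m.b' ≫ m.a + m.d' ≫ m.b) := by
            simp only [Preadditive.comp_add]; abel
        _ = x := by rw [m.k11, m.k21]; simp
    · simp only [Preadditive.add_comp, Category.assoc]
      calc _ = x ≫ (m.a' ≫ m.c + m.c' ≫ m.d) + y ≫ (m.b' ≫ m.c + m.d' ≫ m.d) := by
            simp only [Preadditive.comp_add]; abel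
        _ = y := by rw [m.k12, m.k22]; simp
  map_add' := by
    rintro ⟨x, y⟩ ⟨x', y'⟩
    ext
    · simp only [Prod.mk_add_mk, Preadditive.add_comp]; abel
    · simp only [Prod.mk_add_mk, Preadditive.add_comp]; abel

theorem MatIso.map_Rad {A B U : C} (m : MatIso A B U) (K : AddSubgroup (A ⟶ A)) :
    ((Rad K A).prod (Rad K U)).map (m.homEquiv : _ →+ _) = (Rad K B).prod (Rad K U) := by
  ext ⟨x, y⟩
  constructor
  · rintro ⟨⟨x', y'⟩, hxy, h⟩
    have hx : x' ∈ Rad K A := hxy.1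
    have hy : y' ∈ Rad K U := hxy.2
    obtain ⟨h1, h2⟩ := Prod.ext_iff.mp h
    simp only [AddMonoidHom.coe_coe] at h1 h2
    refine ⟨?_, ?_⟩
    · show x ∈ Rad K B
      intro g
      rw [← h1]
      show (x' ≫ m.a + y' ≫ m.b) ≫ g ∈ K
      rw [Preadditive.add_comp, Category.assoc, Category.assoc]
      exact K.add_mem (hx _) (hy _)
    · show y ∈ Rad K U
      intro g
      rw [← h2]
      show (x' ≫ m.c + y' ≫ m.d) ≫ g ∈ K
      rw [Preadditive.add_comp, Category.assoc, Category.assoc]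
      exact K.add_mem (hx _) (hy _)
  · rintro ⟨hx, hy⟩
    have hx : x ∈ Rad K B := hx
    have hy : y ∈ Rad K U := hy
    refine ⟨m.homEquiv.symm (x, y), ⟨?_, ?_⟩, m.homEquiv.apply_symm_apply _⟩
    · show x ≫ m.a' + y ≫ m.b' ∈ Rad K A
      intro g
      rw [Preadditive.add_comp, Category.assoc, Category.assoc]
      exact K.add_mem (hx _) (hy _)
    · show x ≫ m.c' + y ≫ m.d' ∈ Rad K U
      intro g
      rw [Preadditive.add_comp, Category.assoc, Category.assoc]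
      exact K.add_mem (hx _) (hy _)

/-- **Cancellation.**  If `A ⊕ U ≅ B ⊕ U` and the Hom groups are finitely generated, then every
two-sided ideal of `End A` containing all composites `A ⟶ B ⟶ A` is everything. -/
theorem MatIso.top_of_comp {A B U : C} (m : MatIso A B U)
    (hA : Module.Finite ℤ (A ⟶ A)) (hU : Module.Finite ℤ (A ⟶ U))
    (K : AddSubgroup (A ⟶ A)) (hr : ∀ x ∈ K, ∀ y : A ⟶ A, x ≫ y ∈ K)
    (hK : ∀ (f : A ⟶ B) (g : B ⟶ A), f ≫ g ∈ K) : K = ⊤ := by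
  by_contra hne
  have hne' : K.toIntSubmodule ≠ ⊤ := by
    intro h
    apply hne
    ext x
    have : x ∈ K.toIntSubmodule := by rw [h]; trivial
    exact ⟨fun _ => trivial, fun _ => this⟩
  obtain ⟨n, hn, K', hKK', hK't, hnK', hdesc⟩ := exists_int K.toIntSubmodule hne'
  set L : AddSubgroup (A ⟶ A) := K'.toAddSubgroup with hL
  have hLr : ∀ x ∈ L, ∀ y : A ⟶ A, x ≫ y ∈ L := by
    intro x hx y
    obtain ⟨k, hk, z, rfl⟩ := (hdesc x).mp hx
    refine (hdesc _).mpr ⟨k ≫ y, hr k hk y, z ≫ y, ?_⟩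
    rw [Preadditive.add_comp, Preadditive.zsmul_comp]
  have hcompL : ∀ (f : A ⟶ B) (g : B ⟶ A), f ≫ g ∈ L := fun f g => hKK' (hK f g)
  have hRB : Rad L B = ⊤ := by
    rw [eq_top_iff]
    intro f _ g
    exact hcompL f g
  have hRU : (Rad L U).index ≠ 0 := by
    refine index_ne_zero _ n hn ?_
    intro x g
    rw [Preadditive.zsmul_comp]
    exact hnK' _
  have h1 : ((Rad L A).prod (Rad L U)).index = ((Rad L B).prod (Rad L U)).index := by
    rw [← m.map_Rad L]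
    exact (AddSubgroup.index_map_equiv _ m.homEquiv).symm
  rw [AddSubgroup.index_prod, AddSubgroup.index_prod, hRB, AddSubgroup.index_top] at h1
  have h2 : (Rad L A).index = 1 := Nat.eq_of_mul_eq_mul_right (Nat.pos_of_ne_zero hRU) h1
  have h3 : Rad L A = ⊤ := AddSubgroup.index_eq_one.mp h2
  have h4 : (𝟙 A : A ⟶ A) ∈ Rad L A := by rw [h3]; trivial
  have h5 : (𝟙 A : A ⟶ A) ∈ L := by
    have := h4 (𝟙 A)
    rwa [Category.comp_id] at this
  apply hK't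
  rw [eq_top_iff]
  intro x _
  have := hLr _ h5 x
  rwa [Category.id_comp] at this

/-- Isomorphism from cancellation when `End A` is a commutative domain with principal ideals. -/
theorem MatIso.exists_iso {A B U : C} (m : MatIso A B U)
    (hA : Module.Finite ℤ (A ⟶ A)) (hU : Module.Finite ℤ (A ⟶ U))
    (hcomm : ∀ x y : A ⟶ A, x ≫ y = y ≫ x) (h1 : (𝟙 A : A ⟶ A) ≠ 0)
    (hABA : ∀ (f : A ⟶ B) (g : B ⟶ A), f ≫ g = 0 → f = 0 ∨ g = 0)
    (hABB : ∀ (f : A ⟶ B) (g : B ⟶ B), f ≫ g = 0 → f = 0 ∨ g = 0)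
    (hP : ∀ I : AddSubgroup (A ⟶ A), (∀ x ∈ I, ∀ y, x ≫ y ∈ I) →
      ∃ g ∈ I, ∀ x ∈ I, ∃ y, x = g ≫ y) :
    ∃ (f : A ⟶ B) (g : B ⟶ A), f ≫ g = 𝟙 A ∧ g ≫ f = 𝟙 B := by
  -- the ideal of sums of composites
  let S : Set (A ⟶ A) := {x | ∃ (f : A ⟶ B) (g : B ⟶ A), x = f ≫ g}
  let K : AddSubgroup (A ⟶ A) := AddSubgroup.closure S
  have hr : ∀ x ∈ K, ∀ y : A ⟶ A, x ≫ y ∈ K := by
    intro x hx y
    induction hx using AddSubgroup.closure_induction with
    | mem x hx =>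
      obtain ⟨f, g, rfl⟩ := hx
      exact AddSubgroup.subset_closure ⟨f, g ≫ y, by simp⟩
    | zero => rw [Limits.zero_comp]; exact K.zero_mem
    | add x z _ _ hx hz => rw [Preadditive.add_comp]; exact K.add_mem hx hz
    | neg x _ hx => rw [Preadditive.neg_comp]; exact K.neg_mem hx
  have hK : K = ⊤ := m.top_of_comp hA hU K hr
    (fun f g => AddSubgroup.subset_closure ⟨f, g, rfl⟩)
  -- nonzero morphisms in both directions
  obtain ⟨f0, g0, hfg0⟩ : ∃ (f0 : A ⟶ B) (g0 : B ⟶ A), f0 ≫ g0 ≠ 0 := by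
    by_contra hcon
    push Not at hcon
    have : ∀ x ∈ K, x = 0 := by
      intro x hx
      induction hx using AddSubgroup.closure_induction with
      | mem x hx =>
        obtain ⟨f, g, rfl⟩ := hx
        exact hcon f g
      | zero => rfl
      | add x z _ _ hx hz => rw [hx, hz, add_zero]
      | neg x _ hx => rw [hx, neg_zero]
    exact h1 (this _ (by rw [hK]; trivial))
  have hf0 : f0 ≠ 0 := by rintro rfl; exact hfg0 (by simp)
  have hg0 : g0 ≠ 0 := by rintro rfl; exact hfg0 (by simp)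
  -- generator of Hom(A,B)
  let I1 : AddSubgroup (A ⟶ A) :=
    { carrier := {x | ∃ f : A ⟶ B, x = f ≫ g0}
      add_mem' := by rintro _ _ ⟨f, rfl⟩ ⟨f', rfl⟩; exact ⟨f + f', by simp⟩
      zero_mem' := ⟨0, by simp⟩
      neg_mem' := by rintro _ ⟨f, rfl⟩; exact ⟨-f, by simp⟩ }
  obtain ⟨_, ⟨φ, rfl⟩, hφ⟩ := hP I1 (by
    rintro _ ⟨f, rfl⟩ y
    refine ⟨y ≫ f, ?_⟩
    rw [hcomm, Category.assoc])
  have hφ' : ∀ f : A ⟶ B, ∃ y : A ⟶ A, f = y ≫ φ := by
    intro f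
    obtain ⟨y, hy⟩ := hφ (f ≫ g0) ⟨f, rfl⟩
    refine ⟨y, ?_⟩
    have : (f - y ≫ φ) ≫ g0 = 0 := by
      rw [Preadditive.sub_comp, hy, hcomm, Category.assoc, sub_self]
    rcases hABA _ _ this with h | h
    · exact sub_eq_zero.mp h
    · exact absurd h hg0
  let I2 : AddSubgroup (A ⟶ A) :=
    { carrier := {x | ∃ g : B ⟶ A, x = f0 ≫ g}
      add_mem' := by rintro _ _ ⟨f, rfl⟩ ⟨f', rfl⟩; exact ⟨f + f', by simp⟩
      zero_mem' := ⟨0, by simp⟩
      neg_mem' := by rintro _ ⟨f, rfl⟩; exact ⟨-f, by simp⟩ }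
  obtain ⟨_, ⟨ψ, rfl⟩, hψ⟩ := hP I2 (by
    rintro _ ⟨g, rfl⟩ y
    exact ⟨g ≫ y, by simp⟩)
  have hψ' : ∀ g : B ⟶ A, ∃ y : A ⟶ A, g = ψ ≫ y := by
    intro g
    obtain ⟨y, hy⟩ := hψ (f0 ≫ g) ⟨g, rfl⟩
    refine ⟨y, ?_⟩
    have : f0 ≫ (g - ψ ≫ y) = 0 := by
      rw [Preadditive.comp_sub, hy, Category.assoc, sub_self]
    rcases hABA _ _ this with h | h
    · exact absurd h hf0
    · exact sub_eq_zero.mp h
  -- every element of K is a multiple of φ ≫ ψ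
  have hmul : ∀ x ∈ K, ∃ e : A ⟶ A, x = (φ ≫ ψ) ≫ e := by
    intro x hx
    induction hx using AddSubgroup.closure_induction with
    | mem x hx =>
      obtain ⟨f, g, rfl⟩ := hx
      obtain ⟨y, rfl⟩ := hφ' f
      obtain ⟨z, rfl⟩ := hψ' g
      refine ⟨z ≫ y, ?_⟩
      calc (y ≫ φ) ≫ ψ ≫ z = y ≫ ((φ ≫ ψ) ≫ z) := by simp
        _ = ((φ ≫ ψ) ≫ z) ≫ y := hcomm _ _
        _ = (φ ≫ ψ) ≫ z ≫ y := by simp
    | zero => exact ⟨0, by simp⟩
    | add x z _ _ hx hz =>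
      obtain ⟨e, rfl⟩ := hx
      obtain ⟨e', rfl⟩ := hz
      exact ⟨e + e', by simp⟩
    | neg x _ hx =>
      obtain ⟨e, rfl⟩ := hx
      exact ⟨-e, by simp⟩
  obtain ⟨e, he⟩ := hmul (𝟙 A) (by rw [hK]; trivial)
  refine ⟨φ, ψ ≫ e, by rw [← Category.assoc, ← he], ?_⟩
  have h3 : φ ≫ ((ψ ≫ e) ≫ φ - 𝟙 B) = 0 := by
    rw [Preadditive.comp_sub, Category.comp_id]
    have : φ ≫ (ψ ≫ e) ≫ φ = ((φ ≫ ψ) ≫ e) ≫ φ := by simp
    rw [this, ← he, Category.id_comp, sub_self]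
  rcases hABB _ _ h3 with h | h
  · exfalso
    apply h1
    rw [he, h]
    simp
  · exact sub_eq_zero.mp h

end H91.VF
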