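import Mathlib

/-!
# Verra fourfolds: lattices, Hodge structures, the published theorems

Definitions used in `Results/MP_bb4c81_ag`.
-/

namespace H91.VF

open scoped TensorProduct

/-! ## Lattices -/

/-- A lattice: a finitely generated free abelian group with a symmetric integral bilinear form. -/
structure Lat where
  V : Type
  [acg : AddCommGroup V]
  [free : Module.Free ℤ V]
  [fin : Module.Finite ℤ V]
  q : LinearMap.BilinForm ℤ V
  symm : ∀ x y, q x y = q y x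

attribute [instance] Lat.acg Lat.free Lat.fin

/-- Rank of a lattice. -/
noncomputable def Lat.rk (L : Lat) : ℕ := Module.finrank ℤ L.V

/-- `q(x,x)` is even for all `x`. -/
def Lat.Even (L : Lat) : Prop := ∀ x, 2 ∣ L.q x x

/-- The form has trivial radical. -/
def Lat.Nondeg (L : Lat) : Prop := ∀ x, (∀ y, L.q x y = 0) → x = 0

/-- Unimodular: trivial radical, and every integral functional is `q(v, ·)`. -/
def Lat.Unimod (L : Lat) : Prop := L.Nondeg ∧ ∀ l : L.V →ₗ[ℤ] ℤ, ∃ v, ∀ w, L.q v w = l w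

/-- A primitive isometric embedding. -/
structure PrimEmb (T L : Lat) (i : T.V →ₗ[ℤ] L.V) : Prop where
  inj : Function.Injective i
  isom : ∀ x y, L.q (i x) (i y) = T.q x y
  sat : ∀ (v : L.V) (n : ℤ), n ≠ 0 → n • v ∈ LinearMap.range i → v ∈ LinearMap.range i

/-- The `p`-part of the discriminant group `T^*/T` is generated by `k` elements, that is
`l(A_{T,p}) ≤ k`. -/
def Lat.GenP (T : Lat) (p : ℕ) (k : ℕ) : Prop :=
  ∃ s : Fin k → (T.V →ₗ[ℤ] ℤ), ∀ l : T.V →ₗ[ℤ] ℤ, ∃ (m : ℤ) (t : T.V) (c : Fin k → ℤ),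
    ¬ (p : ℤ) ∣ m ∧ m • l = T.q t + ∑ i, c i • s i

/-- The discriminant quadratic form of `T` splits off `u(2)`: there are `x/2`, `y/2` in `T^*/T`
of square `0` modulo `2` and product `1/2` modulo `1`. -/
def Lat.SplitU2 (T : Lat) : Prop :=
  ∃ x y : T.V, (∀ t, 2 ∣ T.q x t) ∧ (∀ t, 2 ∣ T.q y t) ∧ 8 ∣ T.q x x ∧ 8 ∣ T.q y y ∧
    4 ∣ T.q x y - 2

/-- Nikulin, *Integral symmetric bilinear forms and some of their applications*,
Theorem 1.14.4 (the uniqueness part): a primitive embedding of an even nondegenerate lattice `T`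
in an even unimodular lattice `L` is unique up to `O(L)` if the orthogonal complement is
indefinite, `l(A_{T,p}) ≤ rk L - rk T - 2` for all odd primes `p`, and, in case
`l(A_{T,2}) = rk L - rk T`, the form on `A_{T,2}` splits off `u(2)`. -/
def Nikulin1144 : Prop :=
  ∀ (L T : Lat), L.Even → L.Unimod → T.Even → T.Nondeg →
    ∀ (i j : T.V →ₗ[ℤ] L.V), PrimEmb T L i → PrimEmb T L j →
    (∃ x y : L.V, (∀ t, L.q x (i t) = 0) ∧ (∀ t, L.q y (i t) = 0) ∧
      0 < L.q x x ∧ L.q y y < 0) →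
    (∀ p : ℕ, p.Prime → p ≠ 2 → T.GenP p (L.rk - T.rk - 2)) →
    (T.GenP 2 (L.rk - T.rk - 1) ∨ T.SplitU2) →
    ∃ g : L.V ≃ₗ[ℤ] L.V, (∀ x y, L.q (g x) (g y) = L.q x y) ∧ ∀ t, g (i t) = j t

/-! ## Hodge structures of weight four -/

/-- Complex conjugation on `ℂ ⊗ V`. -/
noncomputable def conj (V : Type) [AddCommGroup V] : ℂ ⊗[ℤ] V →ₗ[ℤ] ℂ ⊗[ℤ] V :=
  TensorProduct.map ((starRingEnd ℂ).toAddMonoidHom.toIntLinearMap) LinearMap.id

/-- A Hodge structure of weight four on `V`; `H p` is `V^{p,4-p}`. -/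
structure Hodge4 (V : Type) [AddCommGroup V] where
  H : ℤ → Submodule ℂ (ℂ ⊗[ℤ] V)
  internal : DirectSum.IsInternal H
  conj_mem : ∀ p x, x ∈ H p → conj V x ∈ H (4 - p)

/-- `Q` satisfies the Hodge–Riemann bilinear relations for `h`: `Q(H^p, H^r) = 0` unless
`p + r = 4`, and `(-1)^p Q(x, conj x) > 0` for `0 ≠ x ∈ H^{p,4-p}`. -/
def Hodge4.Polarizes {V : Type} [AddCommGroup V] (h : Hodge4 V) (Q : LinearMap.BilinForm ℤ V) :
    Prop :=
  (∀ x y, Q x y = Q y x) ∧
  (∀ p r x y, x ∈ h.H p → y ∈ h.H r → p + r ≠ 4 → Q.baseChange ℂ x y = 0) ∧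
  (∀ p x, x ∈ h.H p → x ≠ 0 →
    ∃ r : ℝ, 0 < r ∧ (-1 : ℂ) ^ p * Q.baseChange ℂ x (conj V x) = (r : ℂ))

/-- The summand `H^{p,4-p}` of the direct sum of two Hodge structures. -/
noncomputable def Hodge4.sumH {V W : Type} [AddCommGroup V] [AddCommGroup W]
    (h : Hodge4 V) (k : Hodge4 W) (p : ℤ) : Submodule ℂ (ℂ ⊗[ℤ] (V × W)) :=
  (h.H p).comap ((LinearMap.fst ℤ V W).baseChange ℂ) ⊓
    (k.H p).comap ((LinearMap.snd ℤ V W).baseChange ℂ)

/-- `V ⊕ U ≅ W ⊕ U` as Hodge structures, for some polarizable Hodge structure `U` on a finitely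
generated free abelian group. -/
def StablyIso {V W : Type} [AddCommGroup V] [AddCommGroup W] (h : Hodge4 V) (h' : Hodge4 W) :
    Prop :=
  ∃ (U : Type) (_ : AddCommGroup U) (_ : Module.Free ℤ U) (_ : Module.Finite ℤ U)
    (k : Hodge4 U) (_ : ∃ Q, k.Polarizes Q) (g : (V × U) ≃ₗ[ℤ] (W × U)),
    ∀ p, (h.sumH k p).map (g.toLinearMap.baseChange ℂ) = h'.sumH k p

/-! ## The middle cohomology of a Verra fourfold -/

/-- The middle cohomology `H⁴(X, ℤ)` of a Verra fourfold with its cup product and its Hodge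
structure; `a₁ = h₁²`, `a₂ = h₁h₂`, `a₃ = h₂²`. -/
structure Coh extends Lat where
  hodge : Hodge4 V
  unimod : toLat.Unimod
  /-- `H^{p,4-p} = 0` unless `p = 1, 2, 3` -/
  level : ∀ p, p ≠ 1 → p ≠ 2 → p ≠ 3 → hodge.H p = ⊥
  /-- `h^{3,1} = 1` -/
  one : Module.finrank ℂ (hodge.H 3) = 1
  orth : ∀ p r x y, x ∈ hodge.H p → y ∈ hodge.H r → p + r ≠ 4 → q.baseChange ℂ x y = 0
  /-- Hodge–Riemann relation on `H^{3,1}` -/
  neg : ∀ x, x ∈ hodge.H 3 → x ≠ 0 →
    ∃ r : ℝ, 0 < r ∧ q.baseChange ℂ x (conj V x) = -(r : ℂ)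
  a : Fin 3 → V
  a_hodge : ∀ i, (1 : ℂ) ⊗ₜ[ℤ] a i ∈ hodge.H 2
  /-- Hodge–Riemann relation for primitive classes of type `(2,2)` -/
  pos : ∀ x, x ∈ hodge.H 2 → (∀ i, q.baseChange ℂ ((1 : ℂ) ⊗ₜ[ℤ] a i) x = 0) → x ≠ 0 →
    ∃ r : ℝ, 0 < r ∧ q.baseChange ℂ x (conj V x) = (r : ℂ)

/-- Integral Hodge classes. -/
noncomputable def Coh.hdg (X : Coh) : Submodule ℤ X.V where
  carrier := {v | (1 : ℂ) ⊗ₜ[ℤ] v ∈ X.hodge.H 2}
  add_mem' := by
    intro a b ha hb
    simp only [Set.mem_ofPred_eq, TensorProduct.tmul_add] at *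
    exact Submodule.add_mem _ ha hb
  zero_mem' := by simp
  smul_mem' := by
    intro c x hx
    simp only [Set.mem_ofPred_eq] at *
    rw [TensorProduct.tmul_smul]
    exact Submodule.smul_of_tower_mem _ c hx

/-- The transcendental lattice `T_X`: classes orthogonal to all integral Hodge classes. -/
noncomputable def Coh.tr (X : Coh) : Submodule ℤ X.V where
  carrier := {t | ∀ v ∈ X.hdg, X.q v t = 0}
  add_mem' := by
    intro a b ha hb v hv
    rw [map_add, ha v hv, hb v hv, add_zero]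
  zero_mem' := by
    intro v _
    exact map_zero _
  smul_mem' := by
    intro c x hx v hv
    rw [map_smul, hx v hv, smul_zero]

/-- The inclusion `ℂ ⊗ T_X → ℂ ⊗ H⁴(X, ℤ)`. -/
noncomputable def Coh.incl (X : Coh) : ℂ ⊗[ℤ] X.tr →ₗ[ℂ] ℂ ⊗[ℤ] X.V :=
  X.tr.subtype.baseChange ℂ

/-- `f : T_X → T_Y` is a morphism of Hodge structures. -/
def IsHodge (X Y : Coh) (f : X.tr →ₗ[ℤ] Y.tr) : Prop :=
  ∀ p x, X.incl x ∈ X.hodge.H p → Y.incl (f.baseChange ℂ x) ∈ Y.hodge.H p

/-- `f : T_X → T_Y` is a Hodge isometry. -/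
def HodgeIsometry (X Y : Coh) (f : X.tr ≃ₗ[ℤ] Y.tr) : Prop :=
  IsHodge X Y f.toLinearMap ∧ ∀ s t : X.tr, Y.q (f s) (f t) = X.q s t

/-- `e : T_X → T_X` maps the dual lattice `T_X^*` to itself: if `t/k` is in the dual
lattice, so is `e(t)/k`. -/
def PresDual (X : Coh) (e : X.tr →ₗ[ℤ] X.tr) : Prop :=
  ∀ (k : ℤ) (t : X.tr), (∀ t' : X.tr, k ∣ X.q t t') → ∀ t' : X.tr, k ∣ X.q (e t) t'

/-- The ring `O_X` of Hodge endomorphisms of `T_X` that preserve the dual lattice. -/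
noncomputable def Coh.O (X : Coh) : Subring (Module.End ℤ X.tr) where
  carrier := {e | IsHodge X X e ∧ PresDual X e}
  mul_mem' := by
    rintro e f ⟨he, he'⟩ ⟨hf, hf'⟩
    refine ⟨?_, ?_⟩
    · intro p x hx
      have : ((e * f : Module.End ℤ X.tr).baseChange ℂ) x
          = e.baseChange ℂ (f.baseChange ℂ x) := by
        have h2 : (e * f : Module.End ℤ X.tr) = e ∘ₗ f := rfl
        rw [h2, LinearMap.baseChange_comp]
        rfl
      rw [this]
      exact he p _ (hf p x hx)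
    · intro k t ht
      exact he' k (f t) (hf' k t ht)
  one_mem' := by
    refine ⟨?_, ?_⟩
    · intro p x hx
      have : ((1 : Module.End ℤ X.tr).baseChange ℂ) x = x := by
        have h2 : (1 : Module.End ℤ X.tr) = LinearMap.id := rfl
        rw [h2, LinearMap.baseChange_id]
        rfl
      rw [this]
      exact hx
    · intro k t ht
      exact ht
  add_mem' := by
    rintro e f ⟨he, he'⟩ ⟨hf, hf'⟩
    refine ⟨?_, ?_⟩
    · intro p x hx
      rw [LinearMap.baseChange_add, LinearMap.add_apply, map_add]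
      exact Submodule.add_mem _ (he p x hx) (hf p x hx)
    · intro k t ht t'
      rw [LinearMap.add_apply, Submodule.coe_add, map_add, LinearMap.add_apply]
      exact dvd_add (he' k t ht t') (hf' k t ht t')
  zero_mem' := by
    refine ⟨?_, ?_⟩
    · intro p x _
      rw [LinearMap.baseChange_zero, LinearMap.zero_apply, map_zero]
      exact Submodule.zero_mem _
    · intro k t _ t'
      simp
  neg_mem' := by
    rintro e ⟨he, he'⟩
    refine ⟨?_, ?_⟩
    · intro p x hx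
      rw [LinearMap.baseChange_neg, LinearMap.neg_apply, map_neg]
      exact Submodule.neg_mem _ (he p x hx)
    · intro k t ht t'
      rw [LinearMap.neg_apply, Submodule.coe_neg, map_neg, LinearMap.neg_apply]
      exact (dvd_neg).mpr (he' k t ht t')

/-- `End_Hdg(T_X) = ℤ`. -/
def EndZ (X : Coh) : Prop :=
  ∀ f : X.tr →ₗ[ℤ] X.tr, IsHodge X X f → ∃ n : ℤ, f = n • LinearMap.id

/-- `(s, t) ↦ q_X(u s, t)` is again a polarization of the Hodge structure `T_X`. -/
def PolUnit (X : Coh) (u : X.tr →ₗ[ℤ] X.tr) : Prop :=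
  (∀ s t : X.tr, X.q (u s) t = X.q s (u t)) ∧
  ∀ p x, X.incl x ∈ X.hodge.H p → x ≠ 0 → ∃ r : ℝ, 0 < r ∧
    (-1 : ℂ) ^ p * X.q.baseChange ℂ (X.incl (u.baseChange ℂ x)) (conj X.V (X.incl x)) = (r : ℂ)

/-- `u` is a unit of the ring `O_X`. -/
def UnitO (X : Coh) (u : X.tr →ₗ[ℤ] X.tr) : Prop :=
  u ∈ X.O ∧ ∃ w ∈ X.O, u ∘ₗ w = LinearMap.id ∧ w ∘ₗ u = LinearMap.id

/-- Every unit `u` of `O_X` for which `q_X(u ·, ·)` is a polarization of `T_X` is a norm:
`q_X(u s, t) = q_X(μ s, μ t)` for a unit `μ` of `O_X`. -/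
def UnitsAreNorms (X : Coh) : Prop :=
  ∀ u : X.tr →ₗ[ℤ] X.tr, UnitO X u → PolUnit X u →
    ∃ μ : X.tr →ₗ[ℤ] X.tr, UnitO X μ ∧ ∀ s t : X.tr, X.q (u s) t = X.q (μ s) (μ t)

/-! ## Twisted K3 surfaces -/

/-- The Mukai lattice `H̃(S, α, ℤ)` of a complex projective twisted K3 surface `(S, α)`: even,
unimodular, of signature `(4, 20)`; `σ` spans `H̃^{2,0}`, and
`frame = (Re σ, Im σ, Re exp(B+iω), Im exp(B+iω))` is the natural orientation of the four
positive directions. -/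
structure Mukai extends Lat where
  even : toLat.Even
  unimod : toLat.Unimod
  σ : ℂ ⊗[ℤ] V
  frame : Fin 4 → ℝ ⊗[ℤ] V
  frame_pos : ∀ c : Fin 4 → ℝ, c ≠ 0 →
    0 < q.baseChange ℝ (∑ i, c i • frame i) (∑ i, c i • frame i)
  frame_neg : ∀ x, (∀ i, q.baseChange ℝ (frame i) x = 0) → x ≠ 0 → q.baseChange ℝ x x < 0

/-- The algebraic part `N(S, α)`: classes orthogonal to `H̃^{2,0}`. -/
def Mukai.N (M : Mukai) : Set M.V := {n | M.q.baseChange ℂ ((1 : ℂ) ⊗ₜ[ℤ] n) M.σ = 0}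

/-- A Hodge isometry of Mukai lattices. -/
structure MukaiIsometry (M M' : Mukai) (g : M.V ≃ₗ[ℤ] M'.V) : Prop where
  isom : ∀ x y, M'.q (g x) (g y) = M.q x y
  hodge : ∃ c : ℂ, g.toLinearMap.baseChange ℂ M.σ = c • M'.σ

/-- `g` respects the natural orientations of the four positive directions. -/
def OrientPres (M M' : Mukai) (g : M.V ≃ₗ[ℤ] M'.V) : Prop :=
  0 < Matrix.det (Matrix.of fun i j : Fin 4 =>
    M'.q.baseChange ℝ (g.toLinearMap.baseChange ℝ (M.frame i)) (M'.frame j))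

/-! ## The published theorems -/

/-- Verra fourfolds, twisted K3 surfaces, their derived categories, and the published theorems
that are used. -/
structure VerraData where
  /-- smooth double covers of `ℙ² × ℙ²` branched along a divisor of bidegree `(2,2)` -/
  Verra : Type
  /-- isomorphism -/
  Iso : Verra → Verra → Prop
  /-- L-equivalence -/
  LEq : Verra → Verra → Prop
  /-- the middle cohomology `H⁴(X, ℤ)` -/
  coh : Verra → Coh
  /-- complex projective K3 surfaces with a Brauer class -/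
  K3 : Type
  /-- the Mukai lattice `H̃(S, α, ℤ)` -/
  mukai : K3 → Mukai
  /-- `ℂ`-linear triangulated categories -/
  Cat : Type
  /-- `ℂ`-linear exact equivalence -/
  Equiv : Cat → Cat → Prop
  equiv_symm : ∀ {A B}, Equiv A B → Equiv B A
  equiv_trans : ∀ {A B C}, Equiv A B → Equiv B C → Equiv A C
  /-- the K3 category of `X`: the orthogonal complement of the six line bundles
  `O(i,j)`, `0 ≤ i ≤ 2`, `0 ≤ j ≤ 1` -/
  Ku : Verra → Cat
  /-- the orthogonal complement of `O`, `O(1,0)`, `O(0,1)`, `O(1,1)` -/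
  Ku4 : Verra → Cat
  ku4_iso : ∀ X Y, Iso X Y → Equiv (Ku4 X) (Ku4 Y)
  /-- `D^b(S, α)` -/
  Db : K3 → Cat
  /-- the twisted K3 surface attached to the first projection: the minimal resolution of the
  double plane branched along the discriminant sextic of `X → ℙ²`, with its Brauer class -/
  assoc : Verra → K3
  /-- Kuznetsov 2008 (smooth sextic), Xie 2023 (nodal sextic): `Ku(X) ≅ D^b(S, α)` -/
  ku_db : ∀ X, Equiv (Ku X) (Db (assoc X))
  /-- Bittner 2004, Efimov 2018: `X ↦ [H^*(X, ℤ)]` factors through `K₀(Var/ℂ)[𝕃⁻¹]` -/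
  efimov : ∀ X Y, LEq X Y → StablyIso (coh X).hodge (coh Y).hodge
  /-- van Geemen 2005, Perry 2022: `T_X(-1) ≅ T(S, α)` as Hodge structures with forms -/
  tr_mukai : ∀ X, ∃ j : (coh X).tr →ₗ[ℤ] (mukai (assoc X)).V,
    (∀ s t : (coh X).tr, (mukai (assoc X)).q (j s) (j t) = - (coh X).q s t) ∧
    (∀ m, m ∈ LinearMap.range j ↔ ∀ n ∈ (mukai (assoc X)).N, (mukai (assoc X)).q n m = 0) ∧
    (∀ x, (coh X).incl x ∈ (coh X).hodge.H 3 →
      ∃ c : ℂ, j.baseChange ℂ x = c • (mukai (assoc X)).σ)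
  /-- `N(S, α)` contains the lattice `U(2) ⊕ ⟨2⟩` of classes coming from `ℙ² × ℙ²`: for
  `α = exp(B)` it is spanned by `(0,h,0)`, `(0,0,1)`, `(2,2B,0)` -/
  alg_mukai : ∀ X, ∃ e ∈ (mukai (assoc X)).N, ∃ f ∈ (mukai (assoc X)).N,
    ∃ v ∈ (mukai (assoc X)).N,
      (mukai (assoc X)).q e e = 0 ∧ (mukai (assoc X)).q f f = 0 ∧
      (mukai (assoc X)).q e f = 2 ∧ (mukai (assoc X)).q v v = 2 ∧
      (mukai (assoc X)).q e v = 0 ∧ (mukai (assoc X)).q f v = 0
  /-- all Mukai lattices are isometric (to `U⁴ ⊕ E₈(-1)²`) -/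
  mukai_iso : ∀ s s', ∃ g : (mukai s).V ≃ₗ[ℤ] (mukai s').V,
    ∀ x y, (mukai s').q (g x) (g y) = (mukai s).q x y
  /-- Huybrechts–Stellari 2006: an orientation preserving Hodge isometry of Mukai lattices
  comes from an equivalence -/
  huybrechts_stellari : ∀ s s' (g : (mukai s).V ≃ₗ[ℤ] (mukai s').V),
    MukaiIsometry (mukai s) (mukai s') g → OrientPres (mukai s) (mukai s') g →
    Equiv (Db s) (Db s')
  /-- Nikulin 1979 -/
  nikulin : Nikulin1144
  /-- Torelli theorem for very general Verra fourfolds: if `rk T_X = 21` and `End_Hdg(T_X) = ℤ`,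
  then `T_X` determines the two pairs `(Sᵢ, αᵢ)` (it has exactly two even overlattices of
  index two; Torelli theorem for K3 surfaces), and each of them determines `X`
  (van Geemen 2005, section 9) -/
  torelli : ∀ X Y, Module.finrank ℤ (coh X).tr = 21 → EndZ (coh X) →
    (∃ g : (coh X).tr ≃ₗ[ℤ] (coh Y).tr, HodgeIsometry (coh X) (coh Y) g) → Iso X Y
  /-- Zarhin 1983, van Geemen 2008: no real or complex multiplication in odd prime rank -/
  zarhin : ∀ X, (Module.finrank ℤ (coh X).tr).Prime → Module.finrank ℤ (coh X).tr ≠ 2 →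
    EndZ (coh X)

end H91.VF
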