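import Pool.Agent.H91.VF.Can

/-!
# From an isomorphism with duals to a Hodge isometry
-/

namespace H91.VF

open scoped TensorProduct

namespace Coh

variable (X : Coh)

theorem q_hdg_left {h : X.V} (hh : h ∈ X.hdg) (t : X.tr) : X.q h t = 0 := t.2 h hh

theorem tr_nondeg {s : X.tr} (h : ∀ t : X.tr, X.q s t = 0) : s = 0 := by
  apply Subtype.ext
  exact X.eq_zero_of_mem (X.mem_hdg_of_orth fun t ht => h ⟨t, ht⟩) s.2

/-- The form of `T_X` as a map to the dual. -/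
noncomputable def toDual : X.tr →ₗ[ℤ] (X.tr →ₗ[ℤ] ℤ) :=
  (LinearMap.lcomp ℤ ℤ X.tr.subtype) ∘ₗ X.q ∘ₗ X.tr.subtype

theorem toDual_apply (s t : X.tr) : X.toDual s t = X.q s t := rfl

theorem toDual_injective : Function.Injective X.toDual := by
  rw [← LinearMap.ker_eq_bot, LinearMap.ker_eq_bot']
  intro s hs
  apply X.tr_nondeg
  intro t
  rw [← X.toDual_apply, hs, LinearMap.zero_apply]

/-- A nonzero multiple of every class lies in `T_X + Hdg_X`. -/
theorem exists_multiple (v : X.V) : ∃ n : ℤ, n ≠ 0 ∧ ∃ t : X.tr, ∃ h ∈ X.hdg, n • v = t + h := by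
  have h1 : Module.finrank ℤ ((X.tr →ₗ[ℤ] ℤ) ⧸ LinearMap.range X.toDual) = 0 := by
    have h2 := Submodule.finrank_quotient_add_finrank (LinearMap.range X.toDual)
    have h3 : Module.finrank ℤ (LinearMap.range X.toDual) = Module.finrank ℤ X.tr :=
      LinearMap.finrank_range_of_inj X.toDual_injective
    have h4 : Module.finrank ℤ (X.tr →ₗ[ℤ] ℤ) = Module.finrank ℤ X.tr := by
      rw [Module.finrank_linearMap, Module.finrank_self, mul_one]
    omega
  rw [Module.finrank_eq_zero_iff] at h1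
  obtain ⟨n, hn, h5⟩ := h1 (Submodule.Quotient.mk ((X.q v) ∘ₗ X.tr.subtype))
  rw [← Submodule.Quotient.mk_smul, Submodule.Quotient.mk_eq_zero] at h5
  obtain ⟨t, ht⟩ := h5
  refine ⟨n, hn, t, n • v - t, ?_, by abel⟩
  apply X.mem_hdg_of_orth
  intro s hs
  have h6 := LinearMap.congr_fun ht ⟨s, hs⟩
  rw [X.toDual_apply] at h6
  rw [map_sub, LinearMap.sub_apply, map_smul, LinearMap.smul_apply, h6]
  simp

/-- Classes of `T_X` in a fixed Hodge type: positivity. -/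
theorem pos_tr {p : ℤ} {y : ℂ ⊗[ℤ] X.tr} (hy : X.incl y ∈ X.hodge.H p) (hy0 : y ≠ 0) :
    ∃ r : ℝ, 0 < r ∧
      (-1 : ℂ) ^ p * X.q.baseChange ℂ (X.incl y) (conj X.V (X.incl y)) = (r : ℂ) := by
  have hz0 : X.incl y ≠ 0 := by
    intro h
    exact hy0 (X.incl_injective (by rw [h, map_zero]))
  by_cases hp1 : p = 1
  · subst hp1
    have h1 : conj X.V (X.incl y) ∈ X.hodge.H 3 := by
      have := X.hodge.conj_mem 1 _ hy
      norm_num at this
      exact this
    obtain ⟨r, hr, h2⟩ := X.neg _ h1 (conj_ne_zero hz0)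
    refine ⟨r, hr, ?_⟩
    rw [conj_conj, bc_symm _ X.symm] at h2
    rw [h2]
    norm_num
  by_cases hp2 : p = 2
  · subst hp2
    obtain ⟨r, hr, h2⟩ := X.pos _ hy (fun i => by
      rw [bc_symm _ X.symm]
      have h3 := bc_ext_left X.q X.q X.tr.subtype (0 : X.tr →ₗ[ℤ] X.V) (X.a i) 0 (fun s => by
        rw [X.symm]
        simpa using X.q_hdg_left (X.a_hodge i) s) y
      show X.q.baseChange ℂ (X.tr.subtype.baseChange ℂ y) _ = 0
      rw [h3]
      simp) hz0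
    refine ⟨r, hr, ?_⟩
    rw [h2]
    norm_num
  by_cases hp3 : p = 3
  · subst hp3
    obtain ⟨r, hr, h2⟩ := X.neg _ hy hz0
    refine ⟨r, hr, ?_⟩
    rw [h2]
    norm_num
  · exfalso
    rw [X.level p hp1 hp2 hp3, Submodule.mem_bot] at hy
    exact hz0 hy

/-- Decomposition inside `ℂ ⊗ T_X`. -/
theorem decomp_tr (y : ℂ ⊗[ℤ] X.tr) : ∃ y1 y2 y3 : ℂ ⊗[ℤ] X.tr, X.incl y1 ∈ X.hodge.H 1 ∧
    X.incl y2 ∈ X.hodge.H 2 ∧ X.incl y3 ∈ X.hodge.H 3 ∧ y = y1 + y2 + y3 := by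
  obtain ⟨x1, hx1, x2, hx2, x3, hx3, hx⟩ := X.decomp (X.incl y)
  have h3 : ∃ y3, X.incl y3 = x3 := X.exists_incl hx3
  have h1 : ∃ y1, X.incl y1 = x1 := by
    have h4 : conj X.V x1 ∈ X.hodge.H 3 := by
      have := X.hodge.conj_mem 1 _ hx1
      norm_num at this
      exact this
    obtain ⟨z, hz⟩ := X.exists_incl h4
    refine ⟨conj X.tr z, ?_⟩
    have h5 : X.incl (conj X.tr z) = conj X.V (X.incl z) :=
      (conj_baseChange X.tr.subtype z).symm
    rw [h5, hz, conj_conj]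
  obtain ⟨y1, rfl⟩ := h1
  obtain ⟨y3, rfl⟩ := h3
  refine ⟨y1, y - y1 - y3, y3, hx1, ?_, hx3, by abel⟩
  rw [map_sub, map_sub, hx]
  have : X.incl y1 + x2 + X.incl y3 - X.incl y1 - X.incl y3 = x2 := by abel
  rw [this]
  exact hx2

theorem incl_conj (y : ℂ ⊗[ℤ] X.tr) : X.incl (conj X.tr y) = conj X.V (X.incl y) :=
  (conj_baseChange X.tr.subtype y).symm

theorem conj_incl_mem {p : ℤ} {y : ℂ ⊗[ℤ] X.tr} (hy : X.incl y ∈ X.hodge.H p) :
    X.incl (conj X.tr y) ∈ X.hodge.H (4 - p) := by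
  rw [incl_conj]
  exact X.hodge.conj_mem p _ hy

/-- A class of `ℂ ⊗ T_X` is of type `p` if it is orthogonal to all types but `4 - p`. -/
theorem mem_of_orth {p : ℤ} {y : ℂ ⊗[ℤ] X.tr}
    (h : ∀ r, r ≠ 4 - p → ∀ z, X.incl z ∈ X.hodge.H r →
      X.q.baseChange ℂ (X.incl y) (X.incl z) = 0) :
    X.incl y ∈ X.hodge.H p := by
  obtain ⟨y1, y2, y3, h1, h2, h3, rfl⟩ := X.decomp_tr y
  -- a component of type `r ≠ p` vanishes
  have key : ∀ (r : ℤ) (w : ℂ ⊗[ℤ] X.tr), X.incl w ∈ X.hodge.H r → r ≠ p →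
      X.q.baseChange ℂ (X.incl (y1 + y2 + y3)) (X.incl (conj X.tr w))
        = X.q.baseChange ℂ (X.incl w) (X.incl (conj X.tr w)) → w = 0 := by
    intro r w hw hrp he
    by_contra hw0
    obtain ⟨ρ, hρ, h4⟩ := X.pos_tr hw hw0
    rw [← X.incl_conj, ← he, h (4 - r) (by omega) _ (X.conj_incl_mem hw), mul_zero] at h4
    exact hρ.ne' (by exact_mod_cast h4.symm)
  have o12 : ∀ (a b : ℂ ⊗[ℤ] X.tr) (r s : ℤ), X.incl a ∈ X.hodge.H r →
      X.incl b ∈ X.hodge.H s → r ≠ s →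
      X.q.baseChange ℂ (X.incl a) (X.incl (conj X.tr b)) = 0 := by
    intro a b r s ha hb hrs
    exact X.orth r (4 - s) _ _ ha (X.conj_incl_mem hb) (by omega)
  have z1 : (1 : ℤ) ≠ p → y1 = 0 := fun hp => key 1 y1 h1 hp (by
    simp only [map_add, LinearMap.add_apply, o12 y2 y1 2 1 h2 h1 (by norm_num),
      o12 y3 y1 3 1 h3 h1 (by norm_num), add_zero])
  have z2 : (2 : ℤ) ≠ p → y2 = 0 := fun hp => key 2 y2 h2 hp (by
    simp only [map_add, LinearMap.add_apply, o12 y1 y2 1 2 h1 h2 (by norm_num),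
      o12 y3 y2 3 2 h3 h2 (by norm_num), add_zero, zero_add])
  have z3 : (3 : ℤ) ≠ p → y3 = 0 := fun hp => key 3 y3 h3 hp (by
    simp only [map_add, LinearMap.add_apply, o12 y1 y3 1 3 h1 h3 (by norm_num),
      o12 y2 y3 2 3 h2 h3 (by norm_num), zero_add])
  by_cases hp1 : (1 : ℤ) = p
  · subst hp1
    rw [z2 (by norm_num), z3 (by norm_num), add_zero, add_zero]
    exact h1
  by_cases hp2 : (2 : ℤ) = p
  · subst hp2
    rw [z1 (by norm_num), z3 (by norm_num), add_zero, zero_add]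
    exact h2
  by_cases hp3 : (3 : ℤ) = p
  · subst hp3
    rw [z1 (by norm_num), z2 (by norm_num), zero_add, zero_add]
    exact h3
  · rw [z1 hp1, z2 hp2, z3 hp3, add_zero, add_zero, map_zero]
    exact Submodule.zero_mem _

end Coh

/-- `φ` maps the dual lattice to the dual lattice. -/
def DualMap (X Y : Coh) (φ : X.tr →ₗ[ℤ] Y.tr) : Prop :=
  ∀ (k : ℤ) (t : X.tr), (∀ t' : X.tr, k ∣ X.q t t') → ∀ t' : Y.tr, k ∣ Y.q (φ t) t'

/-- The pulled back form is represented by elements of `T_X`. -/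
theorem exists_u {X Y : Coh} (φ : X.tr →ₗ[ℤ] Y.tr) (hφ : DualMap X Y φ) (t : X.tr) :
    ∃ s : X.tr, ∀ t' : X.tr, X.q s t' = Y.q (φ t) (φ t') := by
  let l : X.tr →ₗ[ℤ] ℤ := (Y.q (φ t)) ∘ₗ Y.tr.subtype ∘ₗ φ
  have hl : ∀ t' : X.tr, l t' = Y.q (φ t) (φ t') := fun _ => rfl
  obtain ⟨v, hv⟩ := X.exists_repr l
  obtain ⟨n, hn, t1, h1, hh1, hnv⟩ := X.exists_multiple v
  -- `t1` is divisible by `n`
  have hdiv : ∀ w : X.V, n ∣ X.q t1 w := by
    intro w
    obtain ⟨m, hm, t2, h2, hh2, hmw⟩ := X.exists_multiple w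
    have hS : ∀ t' : X.tr, m ∣ X.q t2 t' := by
      intro t'
      have h3 : X.q t2 t' = m * X.q w t' := by
        have : (t2 : X.V) = m • w - h2 := by rw [hmw]; abel
        rw [this, map_sub, LinearMap.sub_apply, X.q_hdg_left hh2, sub_zero, map_smul,
          LinearMap.smul_apply, smul_eq_mul]
      rw [h3]
      exact dvd_mul_right _ _
    have h4 : m ∣ l t2 := by
      rw [hl, Y.symm]
      exact hφ m t2 hS (φ t)
    have h5 : X.q t1 t2 = n * l t2 := by
      have : (t1 : X.V) = n • v - h1 := by rw [hnv]; abel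
      rw [this, map_sub, LinearMap.sub_apply, X.q_hdg_left hh1, sub_zero, map_smul,
        LinearMap.smul_apply, smul_eq_mul, hv]
    have h6 : m * X.q t1 w = X.q t1 t2 := by
      have h7 : X.q t1 (m • w) = X.q t1 t2 + X.q t1 h2 := by rw [hmw, map_add]
      rw [map_smul, smul_eq_mul, X.symm t1 h2, X.q_hdg_left hh2, add_zero] at h7
      exact h7
    obtain ⟨c, hc⟩ := h4
    refine ⟨c, ?_⟩
    apply mul_left_cancel₀ hm
    rw [h6, h5, hc]
    ring
  -- so `t1 = n s`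
  let l2 : X.V →ₗ[ℤ] ℤ :=
    { toFun := fun w => X.q t1 w / n
      map_add' := by
        intro a b
        rw [map_add, Int.add_ediv_of_dvd_left (hdiv a)]
      map_smul' := by
        intro c a
        rw [map_smul, smul_eq_mul, RingHom.id_apply, smul_eq_mul, Int.mul_ediv_assoc c (hdiv a)] }
  obtain ⟨s, hs⟩ := X.unimod.2 l2
  have hs2 : (t1 : X.V) = n • s := by
    rw [← sub_eq_zero]
    apply X.unimod.1
    intro w
    rw [map_sub, LinearMap.sub_apply, map_smul, LinearMap.smul_apply, hs, smul_eq_mul]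
    have : l2 w = X.q t1 w / n := rfl
    rw [this, Int.mul_ediv_cancel' (hdiv w), sub_self]
  have hs3 : s ∈ X.tr := X.tr_sat hn (hs2 ▸ t1.2)
  have hs4 : v - s ∈ X.hdg := by
    apply X.hdg_sat hn
    have : n • (v - s) = h1 := by
      rw [smul_sub, hnv, ← hs2]; abel
    rw [this]
    exact hh1
  refine ⟨⟨s, hs3⟩, fun t' => ?_⟩
  have h8 := X.q_hdg_left hs4 t'
  rw [map_sub, LinearMap.sub_apply, hv, hl] at h8
  exact (sub_eq_zero.mp h8).symm

/-- The operator `u` with `q_X(u s, t) = q_Y(φ s, φ t)`. -/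
theorem exists_op {X Y : Coh} (φ : X.tr →ₗ[ℤ] Y.tr) (hφ : DualMap X Y φ) :
    ∃ u : X.tr →ₗ[ℤ] X.tr, ∀ s t : X.tr, X.q (u s) t = Y.q (φ s) (φ t) := by
  choose u hu using exists_u φ hφ
  refine ⟨{ toFun := u, map_add' := ?_, map_smul' := ?_ }, fun s t => hu s t⟩
  · intro a b
    rw [← sub_eq_zero]
    apply X.tr_nondeg
    intro t
    rw [Submodule.coe_sub, Submodule.coe_add, map_sub, map_add, LinearMap.sub_apply,
      LinearMap.add_apply, hu, hu, hu, map_add, Submodule.coe_add, map_add, LinearMap.add_apply,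
      sub_self]
  · intro c a
    rw [RingHom.id_apply, ← sub_eq_zero]
    apply X.tr_nondeg
    intro t
    rw [Submodule.coe_sub, Submodule.coe_smul, map_sub, map_smul, LinearMap.sub_apply,
      LinearMap.smul_apply, hu, hu, map_smul, Submodule.coe_smul, map_smul, LinearMap.smul_apply,
      sub_self]

theorem op_bc {X Y : Coh} {φ : X.tr →ₗ[ℤ] Y.tr} {u : X.tr →ₗ[ℤ] X.tr}
    (hu : ∀ s t : X.tr, X.q (u s) t = Y.q (φ s) (φ t)) (x y : ℂ ⊗[ℤ] X.tr) :
    X.q.baseChange ℂ (X.incl (u.baseChange ℂ x)) (X.incl y)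
      = Y.q.baseChange ℂ (Y.incl (φ.baseChange ℂ x)) (Y.incl (φ.baseChange ℂ y)) := by
  have h := bc_ext X.q Y.q (X.tr.subtype ∘ₗ u) X.tr.subtype (Y.tr.subtype ∘ₗ φ)
    (Y.tr.subtype ∘ₗ φ) (fun a b => hu a b) x y
  rw [LinearMap.baseChange_comp, LinearMap.baseChange_comp] at h
  exact h

theorem op_hodge {X Y : Coh} {φ : X.tr →ₗ[ℤ] Y.tr} {u : X.tr →ₗ[ℤ] X.tr}
    (hu : ∀ s t : X.tr, X.q (u s) t = Y.q (φ s) (φ t)) (hφ : IsHodge X Y φ) :
    IsHodge X X u := by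
  intro p x hx
  apply X.mem_of_orth
  intro r hr z hz
  rw [op_bc hu]
  exact Y.orth p r _ _ (hφ p x hx) (hφ r z hz) (by omega)

theorem op_dual {X Y : Coh} {φ : X.tr →ₗ[ℤ] Y.tr} {u : X.tr →ₗ[ℤ] X.tr}
    (hu : ∀ s t : X.tr, X.q (u s) t = Y.q (φ s) (φ t)) (hφ : DualMap X Y φ) :
    PresDual X u := by
  intro k t ht t'
  rw [hu]
  exact hφ k t ht (φ t')

theorem op_pol {X Y : Coh} {φ : X.tr ≃ₗ[ℤ] Y.tr} {u : X.tr →ₗ[ℤ] X.tr}
    (hu : ∀ s t : X.tr, X.q (u s) t = Y.q (φ s) (φ t)) (hφ : IsHodge X Y φ.toLinearMap) :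
    PolUnit X u := by
  refine ⟨?_, ?_⟩
  · intro s t
    rw [hu, X.symm s, hu, Y.symm]
  · intro p x hx hx0
    have h0 : φ.toLinearMap.baseChange ℂ x ≠ 0 := by
      intro h
      apply hx0
      apply baseChange_injective φ.toLinearMap φ.injective
      rw [h, map_zero]
    obtain ⟨r, hr, h1⟩ := Y.pos_tr (hφ p x hx) h0
    refine ⟨r, hr, ?_⟩
    rw [← h1, ← X.incl_conj, ← Y.incl_conj, conj_baseChange]
    congr 1
    exact op_bc (φ := φ.toLinearMap) hu x (conj X.tr x)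

/-- **Isometry.** -/
theorem exists_isometry {X Y : Coh} (φ : X.tr ≃ₗ[ℤ] Y.tr) (h1 : IsHodge X Y φ.toLinearMap)
    (h2 : IsHodge Y X φ.symm.toLinearMap) (h3 : DualMap X Y φ.toLinearMap)
    (h4 : DualMap Y X φ.symm.toLinearMap) (hU : UnitsAreNorms X) :
    ∃ ψ : X.tr ≃ₗ[ℤ] Y.tr, HodgeIsometry X Y ψ := by
  obtain ⟨u, hu⟩ := exists_op φ.toLinearMap h3
  obtain ⟨u', hu'⟩ := exists_op φ.symm.toLinearMap h4
  let w : X.tr →ₗ[ℤ] X.tr := φ.symm.toLinearMap ∘ₗ u' ∘ₗ φ.toLinearMap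
  have hw : ∀ t : X.tr, w t = φ.symm (u' (φ t)) := fun _ => rfl
  have e1 : u ∘ₗ w = LinearMap.id := by
    apply LinearMap.ext
    intro t
    rw [← sub_eq_zero]
    apply X.tr_nondeg
    intro t'
    have h5 := hu (w t) t'
    have h6 := hu' (φ t) (φ t')
    simp only [LinearEquiv.coe_coe, LinearEquiv.symm_apply_apply] at h5 h6
    rw [hw, LinearEquiv.apply_symm_apply, h6] at h5
    rw [Submodule.coe_sub, map_sub, LinearMap.sub_apply, LinearMap.comp_apply,
      LinearMap.id_apply, hw, h5, sub_self]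
  have e2 : w ∘ₗ u = LinearMap.id := by
    apply LinearMap.ext
    intro t
    apply φ.injective
    rw [LinearMap.comp_apply, hw, LinearEquiv.apply_symm_apply, LinearMap.id_apply,
      ← sub_eq_zero]
    apply Y.tr_nondeg
    intro s
    obtain ⟨t', rfl⟩ := φ.surjective s
    have h5 := hu t t'
    have h6 := hu' (φ (u t)) (φ t')
    simp only [LinearEquiv.coe_coe, LinearEquiv.symm_apply_apply] at h5 h6
    rw [Submodule.coe_sub, map_sub, LinearMap.sub_apply, h6, h5, sub_self]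
  have hwH : IsHodge X X w := by
    intro p x hx
    have h7 : w.baseChange ℂ x = φ.symm.toLinearMap.baseChange ℂ
        (u'.baseChange ℂ (φ.toLinearMap.baseChange ℂ x)) := by
      show (φ.symm.toLinearMap ∘ₗ u' ∘ₗ φ.toLinearMap).baseChange ℂ x = _
      rw [LinearMap.baseChange_comp, LinearMap.baseChange_comp]
      rfl
    rw [h7]
    exact h2 p _ (op_hodge hu' h2 p _ (h1 p x hx))
  have hwD : PresDual X w := by
    intro k t ht
    exact h4 k _ (op_dual hu' h4 k _ (h3 k t ht))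
  have hunit : UnitO X u :=
    ⟨⟨op_hodge hu h1, op_dual hu h3⟩, w, ⟨hwH, hwD⟩, e1, e2⟩
  obtain ⟨μ, ⟨hμ, ν, hν, m1, m2⟩, hnorm⟩ := hU u hunit (op_pol hu h1)
  refine ⟨LinearEquiv.ofLinearMap (φ.toLinearMap ∘ₗ ν) (μ ∘ₗ φ.symm.toLinearMap) ?_ ?_, ?_, ?_⟩
  · apply LinearMap.ext
    intro y
    have h8 := LinearMap.congr_fun m2 (φ.symm y)
    simp only [LinearMap.comp_apply, LinearMap.id_apply, LinearEquiv.coe_coe] at h8 ⊢
    rw [h8, LinearEquiv.apply_symm_apply]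
  · apply LinearMap.ext
    intro y
    have h8 := LinearMap.congr_fun m1 y
    simp only [LinearMap.comp_apply, LinearMap.id_apply, LinearEquiv.coe_coe,
      LinearEquiv.symm_apply_apply] at h8 ⊢
    exact h8
  · intro p x hx
    have h9 : (φ.toLinearMap ∘ₗ ν).baseChange ℂ x
        = φ.toLinearMap.baseChange ℂ (ν.baseChange ℂ x) := by
      rw [LinearMap.baseChange_comp]
      rfl
    show Y.incl ((φ.toLinearMap ∘ₗ ν).baseChange ℂ x) ∈ _
    rw [h9]
    exact h1 p _ (hν.1 p x hx)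
  · intro s t
    show Y.q (φ (ν s)) (φ (ν t)) = X.q s t
    have h10 := hu (ν s) (ν t)
    simp only [LinearEquiv.coe_coe] at h10
    rw [← h10, hnorm]
    have h11 := LinearMap.congr_fun m1 s
    have h12 := LinearMap.congr_fun m1 t
    simp only [LinearMap.comp_apply, LinearMap.id_apply] at h11 h12
    rw [h11, h12]

/-! ## The case `End = ℤ` -/

theorem pir_of_endZ {X : Coh} (h : EndZ X) : IsPrincipalIdealRing X.O := by
  apply IsPrincipalIdealRing.of_surjective (Int.castRingHom X.O)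
  intro e
  obtain ⟨n, hn⟩ := h e.1 e.2.1
  refine ⟨n, ?_⟩
  apply Subtype.ext
  rw [hn]
  simp only [eq_intCast, SubringClass.coe_intCast]
  ext t
  simp

theorem norms_of_endZ {X : Coh} (h : EndZ X) : UnitsAreNorms X := by
  intro u hu hpol
  obtain ⟨n, hn⟩ := h u hu.1.1
  obtain ⟨w, hw, e1, e2⟩ := hu.2
  obtain ⟨m, hm⟩ := h w hw.1
  obtain ⟨ω, hω, hω0, _⟩ := X.exists_omega
  obtain ⟨τ, rfl⟩ := X.exists_incl hω
  have hτ0 : τ ≠ 0 := by
    rintro rfl
    exact hω0 (map_zero _)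
  obtain ⟨r, hr, h1⟩ := hpol.2 3 τ hω hτ0
  obtain ⟨r', hr', h2⟩ := X.neg _ hω hω0
  have h3 : u.baseChange ℂ τ = (n : ℂ) • τ := by
    rw [hn, LinearMap.baseChange_smul, LinearMap.baseChange_id, LinearMap.smul_apply,
      LinearMap.id_apply]
    exact (Int.cast_smul_eq_zsmul ℂ n τ).symm
  rw [h3, map_smul, map_smul, LinearMap.smul_apply, h2, smul_eq_mul] at h1
  have h4 : (n : ℝ) * r' = r := by
    have : ((n : ℂ)) * (r' : ℂ) = (r : ℂ) := by
      rw [← h1]; norm_num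
    exact_mod_cast this
  have hnpos : 0 < n := by
    by_contra hcon
    push Not at hcon
    have : (n : ℝ) ≤ 0 := by exact_mod_cast hcon
    nlinarith
  have hnm : n * m = 1 := by
    -- evaluate on a nonzero element of T_X
    have hne : ∃ t : X.tr, t ≠ 0 := by
      by_contra hall
      push Not at hall
      apply hτ0
      have : (LinearMap.id : X.tr →ₗ[ℤ] X.tr) = 0 := by
        ext t
        simp [hall t]
      have h5 : (LinearMap.id : X.tr →ₗ[ℤ] X.tr).baseChange ℂ τ = 0 := by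
        rw [this, LinearMap.baseChange_zero, LinearMap.zero_apply]
      rwa [LinearMap.baseChange_id, LinearMap.id_apply] at h5
    obtain ⟨t, ht⟩ := hne
    have h6 := LinearMap.congr_fun e1 t
    rw [hn, hm, LinearMap.comp_apply, LinearMap.smul_apply, LinearMap.smul_apply,
      LinearMap.id_apply, LinearMap.id_apply, smul_smul] at h6
    have h7 : (n * m - 1) • t = 0 := by rw [sub_smul, h6, one_smul, sub_self]
    rcases smul_eq_zero.mp h7 with h8 | h8
    · linarith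
    · exact absurd h8 ht
  have hn1 : n = 1 := by
    rcases Int.eq_one_or_neg_one_of_mul_eq_one hnm with h8 | h8
    · exact h8
    · omega
  refine ⟨LinearMap.id, ⟨X.O.one_mem, LinearMap.id, X.O.one_mem, rfl, rfl⟩, ?_⟩
  intro s t
  rw [hn, hn1, one_smul]
  rfl

end H91.VF
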