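import Pool.Agent.H91.VF.Defs

/-!
# Linear algebra of the Hodge structure `H⁴(X, ℤ)`
-/

namespace H91.VF

open scoped TensorProduct

section conj

variable {V W A B : Type} [AddCommGroup V] [AddCommGroup W] [AddCommGroup A] [AddCommGroup B]

theorem conj_tmul (c : ℂ) (v : V) : conj V (c ⊗ₜ[ℤ] v) = (starRingEnd ℂ c) ⊗ₜ[ℤ] v := rfl

theorem conj_conj (x : ℂ ⊗[ℤ] V) : conj V (conj V x) = x := by
  induction x using TensorProduct.induction_on with
  | zero => simp
  | tmul c v => simp [conj_tmul]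
  | add x y hx hy => rw [map_add, map_add, hx, hy]

theorem conj_smul (c : ℂ) (x : ℂ ⊗[ℤ] V) :
    conj V (c • x) = (starRingEnd ℂ c) • conj V x := by
  induction x using TensorProduct.induction_on with
  | zero => simp
  | tmul d v => simp [conj_tmul, TensorProduct.smul_tmul']
  | add x y hx hy => rw [smul_add, map_add, map_add, smul_add, hx, hy]

theorem conj_baseChange (f : V →ₗ[ℤ] W) (x : ℂ ⊗[ℤ] V) :
    conj W (f.baseChange ℂ x) = f.baseChange ℂ (conj V x) := by
  induction x using TensorProduct.induction_on with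
  | zero => simp
  | tmul d v => simp [conj_tmul]
  | add x y hx hy => rw [map_add, map_add, map_add, map_add, hx, hy]

theorem conj_one_tmul (v : V) : conj V ((1 : ℂ) ⊗ₜ[ℤ] v) = (1 : ℂ) ⊗ₜ[ℤ] v := by
  rw [conj_tmul, map_one]

theorem conj_ne_zero {x : ℂ ⊗[ℤ] V} (hx : x ≠ 0) : conj V x ≠ 0 := by
  intro h
  apply hx
  rw [← conj_conj x, h, map_zero]

theorem bc_conj (Q : LinearMap.BilinForm ℤ V) (x y : ℂ ⊗[ℤ] V) :
    Q.baseChange ℂ (conj V x) (conj V y) = starRingEnd ℂ (Q.baseChange ℂ x y) := by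
  induction x using TensorProduct.induction_on with
  | zero => simp
  | tmul c v =>
    induction y using TensorProduct.induction_on with
    | zero => simp
    | tmul d w => simp [conj_tmul]
    | add x y hx hy => simp only [map_add, hx, hy]
  | add x y hx hy => simp only [map_add, LinearMap.add_apply, hx, hy]

theorem bc_ext (Q : LinearMap.BilinForm ℤ V) (P : LinearMap.BilinForm ℤ W)
    (f : A →ₗ[ℤ] V) (g : B →ₗ[ℤ] V) (f' : A →ₗ[ℤ] W) (g' : B →ₗ[ℤ] W)
    (h : ∀ a b, Q (f a) (g b) = P (f' a) (g' b)) (x : ℂ ⊗[ℤ] A) (y : ℂ ⊗[ℤ] B) :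
    Q.baseChange ℂ (f.baseChange ℂ x) (g.baseChange ℂ y)
      = P.baseChange ℂ (f'.baseChange ℂ x) (g'.baseChange ℂ y) := by
  induction x using TensorProduct.induction_on with
  | zero => simp
  | tmul c v =>
    induction y using TensorProduct.induction_on with
    | zero => simp
    | tmul d w => simp [h]
    | add x y hx hy => simp only [map_add, hx, hy]
  | add x y hx hy => simp only [map_add, LinearMap.add_apply, hx, hy]

theorem bc_symm (Q : LinearMap.BilinForm ℤ V) (h : ∀ x y, Q x y = Q y x) (x y : ℂ ⊗[ℤ] V) :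
    Q.baseChange ℂ x y = Q.baseChange ℂ y x := by
  induction x using TensorProduct.induction_on with
  | zero => simp
  | tmul c v =>
    induction y using TensorProduct.induction_on with
    | zero => simp
    | tmul d w => simp [h v w, mul_comm]
    | add x y hx hy => simp only [map_add, LinearMap.add_apply, hx, hy]
  | add x y hx hy => simp only [map_add, LinearMap.add_apply, hx, hy]

/-- Functionals `x ↦ Q(f x, 1 ⊗ v)` are determined on integral elements. -/
theorem bc_ext_left (Q : LinearMap.BilinForm ℤ V) (P : LinearMap.BilinForm ℤ W)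
    (f : A →ₗ[ℤ] V) (f' : A →ₗ[ℤ] W) (v : V) (w : W)
    (h : ∀ a, Q (f a) v = P (f' a) w) (x : ℂ ⊗[ℤ] A) :
    Q.baseChange ℂ (f.baseChange ℂ x) ((1 : ℂ) ⊗ₜ[ℤ] v)
      = P.baseChange ℂ (f'.baseChange ℂ x) ((1 : ℂ) ⊗ₜ[ℤ] w) := by
  induction x using TensorProduct.induction_on with
  | zero => simp
  | tmul c v => simp [h]
  | add x y hx hy => simp only [map_add, LinearMap.add_apply, hx, hy]

end conj

/-- Integral elements embed in `ℂ ⊗ V`. -/
theorem one_tmul_injective (V : Type) [AddCommGroup V] [Module.Free ℤ V] :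
    Function.Injective (fun v : V => (1 : ℂ) ⊗ₜ[ℤ] v) := by
  have h1 : Function.Injective (LinearMap.rTensor V (Algebra.linearMap ℤ ℂ)) := by
    apply Module.Flat.rTensor_preserves_injective_linearMap
    intro a b hab
    have : ((a : ℤ) : ℂ) = ((b : ℤ) : ℂ) := hab
    exact_mod_cast this
  intro v w hvw
  have h2 : LinearMap.rTensor V (Algebra.linearMap ℤ ℂ) ((1 : ℤ) ⊗ₜ v)
      = LinearMap.rTensor V (Algebra.linearMap ℤ ℂ) ((1 : ℤ) ⊗ₜ w) := by
    simpa using hvw
  have h3 := h1 h2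
  have h4 := congrArg (TensorProduct.lid ℤ V) h3
  simpa using h4

theorem baseChange_injective {V W : Type} [AddCommGroup V] [AddCommGroup W]
    (f : V →ₗ[ℤ] W) (hf : Function.Injective f) :
    Function.Injective (f.baseChange ℂ) := by
  have := Module.Flat.lTensor_preserves_injective_linearMap (M := ℂ) f hf
  rw [← LinearMap.baseChange_eq_ltensor] at this
  exact this

namespace Coh

variable (X : Coh)

theorem incl_injective : Function.Injective X.incl :=
  baseChange_injective _ X.tr.subtype_injective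

theorem incl_one (t : X.tr) : X.incl ((1 : ℂ) ⊗ₜ[ℤ] t) = (1 : ℂ) ⊗ₜ[ℤ] (t : X.V) := by
  simp [incl]

theorem exists_omega : ∃ ω ∈ X.hodge.H 3, ω ≠ 0 ∧ ∀ x ∈ X.hodge.H 3, ∃ c : ℂ, x = c • ω := by
  obtain ⟨w, hw, h⟩ := finrank_eq_one_iff'.mp X.one
  refine ⟨w, w.2, ?_, ?_⟩
  · intro h0
    apply hw
    exact Subtype.ext h0
  · intro x hx
    obtain ⟨c, hc⟩ := h ⟨x, hx⟩
    exact ⟨c, by rw [← Submodule.coe_smul, hc]⟩

theorem decomp (x : ℂ ⊗[ℤ] X.V) : ∃ x1 ∈ X.hodge.H 1, ∃ x2 ∈ X.hodge.H 2,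
    ∃ x3 ∈ X.hodge.H 3, x = x1 + x2 + x3 := by
  have h1 : (⨆ p, X.hodge.H p) = ⊤ := X.hodge.internal.submodule_iSup_eq_top
  have h2 : (⨆ p, X.hodge.H p) ≤ X.hodge.H 1 ⊔ X.hodge.H 2 ⊔ X.hodge.H 3 := by
    refine iSup_le fun p => ?_
    by_cases hp1 : p = 1
    · subst hp1; exact le_sup_left.trans le_sup_left
    by_cases hp2 : p = 2
    · subst hp2; exact le_sup_right.trans le_sup_left
    by_cases hp3 : p = 3
    · subst hp3; exact le_sup_right
    rw [X.level p hp1 hp2 hp3]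
    exact bot_le
  have hx : x ∈ X.hodge.H 1 ⊔ X.hodge.H 2 ⊔ X.hodge.H 3 := h2 (h1 ▸ Submodule.mem_top)
  obtain ⟨y, hy, x3, hx3, rfl⟩ := Submodule.mem_sup.mp hx
  obtain ⟨x1, hx1, x2, hx2, rfl⟩ := Submodule.mem_sup.mp hy
  exact ⟨x1, hx1, x2, hx2, x3, hx3, rfl⟩

/-- An integral class orthogonal to `H^{3,1}` is a Hodge class. -/
theorem hodge_of_orth (v : X.V)
    (h : ∀ x ∈ X.hodge.H 3, X.q.baseChange ℂ ((1 : ℂ) ⊗ₜ[ℤ] v) x = 0) : v ∈ X.hdg := by
  obtain ⟨ω, hω, hω0, hspan⟩ := X.exists_omega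
  obtain ⟨r, hr, hneg⟩ := X.neg ω hω hω0
  have hne : X.q.baseChange ℂ ω (conj X.V ω) ≠ 0 := by
    rw [hneg]
    simpa using hr.ne'
  have hcω : conj X.V ω ∈ X.hodge.H 1 := by
    have := X.hodge.conj_mem 3 ω hω
    norm_num at this
    exact this
  obtain ⟨x1, hx1, x2, hx2, x3, hx3, hx⟩ := X.decomp ((1 : ℂ) ⊗ₜ[ℤ] v)
  -- x1 is a multiple of conj ω
  have h1 : ∃ c : ℂ, x1 = c • conj X.V ω := by
    have h2 : conj X.V x1 ∈ X.hodge.H 3 := by
      have := X.hodge.conj_mem 1 x1 hx1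
      norm_num at this
      exact this
    obtain ⟨c, hc⟩ := hspan _ h2
    refine ⟨starRingEnd ℂ c, ?_⟩
    rw [← conj_conj x1, hc, conj_smul]
  obtain ⟨c, hc⟩ := h1
  have e2 : X.q.baseChange ℂ x2 ω = 0 := X.orth 2 3 _ _ hx2 hω (by norm_num)
  have e3 : X.q.baseChange ℂ x3 ω = 0 := X.orth 3 3 _ _ hx3 hω (by norm_num)
  have e0 := h ω hω
  rw [hx, map_add, map_add, LinearMap.add_apply, LinearMap.add_apply, e2, e3, hc, map_smul,
    LinearMap.smul_apply, bc_symm _ X.symm, add_zero, add_zero, smul_eq_mul] at e0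
  have hc0 : c = 0 := (mul_eq_zero.mp e0).resolve_right hne
  have hx10 : x1 = 0 := by rw [hc, hc0, zero_smul]
  -- x3 = 0
  obtain ⟨d, hd⟩ := hspan x3 hx3
  have hreal : conj X.V x2 + conj X.V x3 = x2 + x3 := by
    have h4 := conj_one_tmul v
    rw [hx, hx10, zero_add, map_add] at h4
    exact h4
  have hcx2 : conj X.V x2 ∈ X.hodge.H 2 := by
    have := X.hodge.conj_mem 2 x2 hx2
    norm_num at this
    exact this
  have e4 : X.q.baseChange ℂ (conj X.V x2) ω = 0 := X.orth 2 3 _ _ hcx2 hω (by norm_num)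
  have e5 := congrArg (fun z => X.q.baseChange ℂ z ω) hreal
  simp only [map_add, LinearMap.add_apply, e4, e2, e3, add_zero, zero_add] at e5
  rw [hd, conj_smul, map_smul, LinearMap.smul_apply, bc_symm _ X.symm, smul_eq_mul] at e5
  have hd0 : d = 0 := by
    have := (mul_eq_zero.mp e5).resolve_right hne
    simpa using this
  have hx30 : x3 = 0 := by rw [hd, hd0, zero_smul]
  show (1 : ℂ) ⊗ₜ[ℤ] v ∈ X.hodge.H 2
  rw [hx, hx10, hx30, zero_add, add_zero]
  exact hx2

theorem mem_hdg {v : X.V} : v ∈ X.hdg ↔ (1 : ℂ) ⊗ₜ[ℤ] v ∈ X.hodge.H 2 := Iff.rfl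

theorem mem_tr {t : X.V} : t ∈ X.tr ↔ ∀ v ∈ X.hdg, X.q v t = 0 := Iff.rfl

/-- Every class in `H^{3,1}` lies in `ℂ ⊗ T_X`. -/
theorem exists_incl {x : ℂ ⊗[ℤ] X.V} (hx : x ∈ X.hodge.H 3) : ∃ y, X.incl y = x := by
  classical
  let b := Module.Free.chooseBasis ℤ X.hdg
  let ι := Module.Free.ChooseBasisIndex ℤ X.hdg
  let φ : X.V →ₗ[ℤ] (ι → ℤ) := LinearMap.pi fun i => X.q (b i : X.V)
  have hφ : Function.Exact X.tr.subtype φ := by
    intro v
    constructor
    · intro hv
      refine ⟨⟨v, ?_⟩, rfl⟩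
      intro w hw
      have h1 : (⟨w, hw⟩ : X.hdg) = ∑ i, (b.repr ⟨w, hw⟩) i • b i := (b.sum_repr _).symm
      have h2 : w = ∑ i, (b.repr ⟨w, hw⟩) i • (b i : X.V) := by
        have h3 := congrArg X.hdg.subtype h1
        rw [map_sum] at h3
        simpa only [map_smul, Submodule.subtype_apply] using h3
      rw [h2, map_sum, LinearMap.sum_apply]
      refine Finset.sum_eq_zero fun i _ => ?_
      rw [map_smul, LinearMap.smul_apply]
      have h3 : X.q (b i : X.V) v = 0 := congrFun hv i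
      rw [h3, smul_zero]
    · rintro ⟨⟨v, hv⟩, rfl⟩
      funext i
      exact hv _ (b i).2
  have hex := Module.Flat.lTensor_exact ℂ hφ
  have h0 : LinearMap.lTensor ℂ φ x = 0 := by
    apply (TensorProduct.piScalarRight ℤ ℂ ℂ ι).injective
    rw [map_zero]
    funext i
    have h1 : ∀ z : ℂ ⊗[ℤ] X.V, (TensorProduct.piScalarRight ℤ ℂ ℂ ι)
        (LinearMap.lTensor ℂ φ z) i = X.q.baseChange ℂ ((1 : ℂ) ⊗ₜ[ℤ] (b i : X.V)) z := by
      intro z
      induction z using TensorProduct.induction_on with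
      | zero => simp
      | tmul c v => simp [φ]
      | add x y hx hy => simp only [map_add, Pi.add_apply, hx, hy]
    rw [h1, Pi.zero_apply]
    exact X.orth 2 3 _ _ (b i).2 hx (by norm_num)
  obtain ⟨y, hy⟩ := (hex x).mp h0
  refine ⟨y, ?_⟩
  rw [← hy]
  show X.tr.subtype.baseChange ℂ y = _
  rw [LinearMap.baseChange_eq_ltensor]

/-- `T_X ∩ Hdg_X = 0`. -/
theorem eq_zero_of_mem {t : X.V} (h1 : t ∈ X.hdg) (h2 : t ∈ X.tr) : t = 0 := by
  by_contra h
  have h3 : (1 : ℂ) ⊗ₜ[ℤ] t ≠ 0 := by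
    intro h4
    apply h
    apply one_tmul_injective X.V
    simpa using h4
  obtain ⟨r, hr, h5⟩ := X.pos _ h1 (fun i => by
    rw [LinearMap.BilinForm.baseChange_tmul, h2 _ (X.a_hodge i)]
    simp) h3
  rw [conj_one_tmul, LinearMap.BilinForm.baseChange_tmul, h2 _ h1] at h5
  simp at h5
  exact hr.ne' (by exact_mod_cast h5.symm)

/-- A class orthogonal to `T_X` is a Hodge class. -/
theorem mem_hdg_of_orth {v : X.V} (h : ∀ t ∈ X.tr, X.q v t = 0) : v ∈ X.hdg := by
  apply X.hodge_of_orth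
  intro x hx
  obtain ⟨y, rfl⟩ := X.exists_incl hx
  have h1 := bc_ext_left X.q X.q X.tr.subtype (0 : X.tr →ₗ[ℤ] X.V) v 0 (fun a => by
    rw [X.symm]
    simpa using h a a.2) y
  rw [bc_symm _ X.symm]
  show X.q.baseChange ℂ (X.tr.subtype.baseChange ℂ y) _ = 0
  rw [h1]
  simp

theorem tr_sat {v : X.V} {n : ℤ} (hn : n ≠ 0) (h : n • v ∈ X.tr) : v ∈ X.tr := by
  intro w hw
  have := h w hw
  rw [map_smul, smul_eq_mul] at this
  exact (mul_eq_zero.mp this).resolve_left hn

theorem hdg_sat {v : X.V} {n : ℤ} (hn : n ≠ 0) (h : n • v ∈ X.hdg) : v ∈ X.hdg := by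
  apply X.mem_hdg_of_orth
  intro t ht
  have := ht _ h
  rw [map_smul, LinearMap.smul_apply, smul_eq_mul] at this
  exact (mul_eq_zero.mp this).resolve_left hn

/-- Every integral functional on `T_X` is `q_X(v, ·)`. -/
theorem exists_repr (l : X.tr →ₗ[ℤ] ℤ) : ∃ v : X.V, ∀ t : X.tr, X.q v t = l t := by
  have hfree : Module.Free ℤ (X.V ⧸ X.tr) := by
    have : Module.IsTorsionFree ℤ (X.V ⧸ X.tr) := by
      refine Module.isTorsionFree_iff_smul_eq_zero.mpr ?_
      intro n x hx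
      obtain ⟨v, rfl⟩ := Submodule.Quotient.mk_surjective _ x
      by_cases hn : n = 0
      · exact Or.inl hn
      · right
        rw [← Submodule.Quotient.mk_smul, Submodule.Quotient.mk_eq_zero] at hx
        rw [Submodule.Quotient.mk_eq_zero]
        exact X.tr_sat hn hx
    infer_instance
  obtain ⟨s, hs⟩ := Module.projective_lifting_property X.tr.mkQ LinearMap.id
    X.tr.mkQ_surjective
  -- projection to T_X
  let π : X.V →ₗ[ℤ] X.tr := LinearMap.codRestrict X.tr (LinearMap.id - s ∘ₗ X.tr.mkQ) (by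
    intro v
    rw [← Submodule.Quotient.mk_eq_zero]
    have := LinearMap.congr_fun hs (Submodule.Quotient.mk v)
    simp only [LinearMap.coe_comp, Function.comp_apply, LinearMap.id_apply,
      Submodule.mkQ_apply] at this
    simp only [LinearMap.sub_apply, LinearMap.id_apply, LinearMap.coe_comp,
      Function.comp_apply, Submodule.mkQ_apply, Submodule.Quotient.mk_sub, this, sub_self])
  obtain ⟨v, hv⟩ := X.unimod.2 (l ∘ₗ π)
  refine ⟨v, fun t => ?_⟩
  rw [hv, LinearMap.comp_apply]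
  congr 1
  apply Subtype.ext
  have : (Submodule.Quotient.mk (t : X.V) : X.V ⧸ X.tr) = 0 := by
    rw [Submodule.Quotient.mk_eq_zero]; exact t.2
  simp [π, this]

end Coh

end H91.VF
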