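import Pool.Agent.H91.VF.Cat
import Pool.Agent.H91.VF.Hdg

/-!
# The category of transcendental parts with their dual lattices
-/

namespace H91.VF

open CategoryTheory
open scoped TensorProduct

/-- A finitely generated free abelian group with a family of subspaces of its complexification
and a family of subgroups. -/
structure PObj where
  C : Type
  [acg : AddCommGroup C]
  [free : Module.Free ℤ C]
  [fin : Module.Finite ℤ C]
  H : ℤ → Submodule ℂ (ℂ ⊗[ℤ] C)
  S : ℤ → Submodule ℤ C

attribute [instance] PObj.acg PObj.free PObj.fin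

/-- Morphisms. -/
noncomputable def PObj.homS (A B : PObj) : Submodule ℤ (A.C →ₗ[ℤ] B.C) where
  carrier := {f | (∀ p x, x ∈ A.H p → f.baseChange ℂ x ∈ B.H p) ∧ ∀ k x, x ∈ A.S k → f x ∈ B.S k}
  add_mem' := by
    rintro f g ⟨hf, hf'⟩ ⟨hg, hg'⟩
    refine ⟨?_, ?_⟩
    · intro p x hx
      rw [LinearMap.baseChange_add, LinearMap.add_apply]
      exact Submodule.add_mem _ (hf p x hx) (hg p x hx)
    · intro k x hx
      exact Submodule.add_mem _ (hf' k x hx) (hg' k x hx)
  zero_mem' := by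
    refine ⟨?_, ?_⟩
    · intro p x _
      rw [LinearMap.baseChange_zero, LinearMap.zero_apply]
      exact Submodule.zero_mem _
    · intro k x _
      exact Submodule.zero_mem _
  smul_mem' := by
    rintro n f ⟨hf, hf'⟩
    refine ⟨?_, ?_⟩
    · intro p x hx
      rw [LinearMap.baseChange_smul, LinearMap.smul_apply]
      exact Submodule.smul_of_tower_mem _ n (hf p x hx)
    · intro k x hx
      exact Submodule.smul_mem _ n (hf' k x hx)

theorem PObj.mem_homS {A B : PObj} {f : A.C →ₗ[ℤ] B.C} : f ∈ A.homS B ↔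
    (∀ p x, x ∈ A.H p → f.baseChange ℂ x ∈ B.H p) ∧ ∀ k x, x ∈ A.S k → f x ∈ B.S k := Iff.rfl

theorem PObj.comp_mem {A B D : PObj} {f : A.C →ₗ[ℤ] B.C} {g : B.C →ₗ[ℤ] D.C}
    (hf : f ∈ A.homS B) (hg : g ∈ B.homS D) : g ∘ₗ f ∈ A.homS D := by
  refine ⟨?_, ?_⟩
  · intro p x hx
    rw [LinearMap.baseChange_comp]
    exact hg.1 p _ (hf.1 p x hx)
  · intro k x hx
    exact hg.2 k _ (hf.2 k x hx)

theorem PObj.id_mem (A : PObj) : (LinearMap.id : A.C →ₗ[ℤ] A.C) ∈ A.homS A := by
  refine ⟨?_, ?_⟩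
  · intro p x hx
    rw [LinearMap.baseChange_id]
    exact hx
  · intro k x hx
    exact hx

noncomputable instance : Category PObj where
  Hom A B := A.homS B
  id A := ⟨LinearMap.id, A.id_mem⟩
  comp f g := ⟨g.1 ∘ₗ f.1, PObj.comp_mem f.2 g.2⟩

theorem PObj.comp_val {A B D : PObj} (f : A ⟶ B) (g : B ⟶ D) : (f ≫ g).1 = g.1 ∘ₗ f.1 := rfl

theorem PObj.id_val (A : PObj) : (𝟙 A : A ⟶ A).1 = LinearMap.id := rfl

theorem PObj.hom_ext {A B : PObj} {f g : A ⟶ B} (h : f.1 = g.1) : f = g := Subtype.ext h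

noncomputable instance : Preadditive PObj where
  homGroup A B := inferInstanceAs (AddCommGroup (A.homS B))
  add_comp := by
    intro A B D f f' g
    apply PObj.hom_ext
    exact LinearMap.comp_add _ _ _
  comp_add := by
    intro A B D f g g'
    apply PObj.hom_ext
    exact LinearMap.add_comp _ _ _

theorem PObj.add_val {A B : PObj} (f g : A ⟶ B) : (f + g).1 = f.1 + g.1 := rfl

theorem PObj.zero_val (A B : PObj) : (0 : A ⟶ B).1 = 0 := rfl

theorem PObj.finite_hom (A B : PObj) : Module.Finite ℤ (A ⟶ B) := by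
  have h : Module.Finite ℤ (A.homS B) := inferInstance
  rw [Module.Finite.iff_addGroup_fg] at h ⊢
  exact h

/-! ## The functor -/

section functor

variable {V W U : Type} [AddCommGroup V] [AddCommGroup W] [AddCommGroup U]

/-- A family of subspaces. -/
abbrev Fam (V : Type) [AddCommGroup V] := ℤ → Submodule ℂ (ℂ ⊗[ℤ] V)

/-- Compatibility with families. -/
def FHom (F : Fam V) (G : Fam W) (f : V →ₗ[ℤ] W) : Prop :=
  ∀ p x, x ∈ F p → f.baseChange ℂ x ∈ G p

/-- Common kernel of all morphisms to the Tate structure. -/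
noncomputable def trF (F : Fam V) : Submodule ℤ V where
  carrier := {v | ∀ l : V →ₗ[ℤ] ℤ, (∀ p, p ≠ 2 → ∀ x ∈ F p, l.baseChange ℂ x = 0) → l v = 0}
  add_mem' := by
    intro a b ha hb l hl
    rw [map_add, ha l hl, hb l hl, add_zero]
  zero_mem' := by
    intro l _
    exact map_zero _
  smul_mem' := by
    intro c x hx l hl
    rw [map_smul, hx l hl, smul_zero]

/-- Integral Hodge classes. -/
noncomputable def hdgF (F : Fam V) : Submodule ℤ V where
  carrier := {v | (1 : ℂ) ⊗ₜ[ℤ] v ∈ F 2}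
  add_mem' := by
    intro a b ha hb
    simp only [Set.mem_ofPred_eq, TensorProduct.tmul_add] at *
    exact Submodule.add_mem _ ha hb
  zero_mem' := by simp
  smul_mem' := by
    intro c x hx
    simp only [Set.mem_ofPred_eq] at *
    rw [TensorProduct.tmul_smul]
    exact Submodule.smul_of_tower_mem _ c hx

/-- `T'_k = T ∩ (k V + Hdg)`. -/
noncomputable def subF (F : Fam V) (k : ℤ) : Submodule ℤ V :=
  trF F ⊓ (LinearMap.range (LinearMap.lsmul ℤ V k) ⊔ hdgF F)

theorem trF_map {F : Fam V} {G : Fam W} {f : V →ₗ[ℤ] W} (hf : FHom F G f) {v : V}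
    (hv : v ∈ trF F) : f v ∈ trF G := by
  intro l hl
  have := hv (l ∘ₗ f) (by
    intro p hp x hx
    rw [LinearMap.baseChange_comp]
    exact hl p hp _ (hf p x hx))
  exact this

theorem hdgF_map {F : Fam V} {G : Fam W} {f : V →ₗ[ℤ] W} (hf : FHom F G f) {v : V}
    (hv : v ∈ hdgF F) : f v ∈ hdgF G := by
  have := hf 2 _ hv
  rwa [LinearMap.baseChange_tmul] at this

theorem subF_map {F : Fam V} {G : Fam W} {f : V →ₗ[ℤ] W} (hf : FHom F G f) {v : V} {k : ℤ}
    (hv : v ∈ subF F k) : f v ∈ subF G k := by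
  refine ⟨trF_map hf hv.1, ?_⟩
  obtain ⟨_, ⟨w, rfl⟩, h, hh, rfl⟩ := Submodule.mem_sup.mp hv.2
  rw [map_add]
  refine Submodule.add_mem_sup ⟨f w, ?_⟩ (hdgF_map hf hh)
  simp

/-- The object attached to a submodule and families of subspaces and submodules. -/
noncomputable def PObj.ofSub (V : Type) [AddCommGroup V] [Module.Free ℤ V] [Module.Finite ℤ V]
    (F : Fam V) (T : Submodule ℤ V) (S : ℤ → Submodule ℤ V) : PObj where
  C := T
  H p := (F p).comap (T.subtype.baseChange ℂ)
  S k := (S k).comap T.subtype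

/-- `P(V)`. -/
noncomputable def PObj.of (V : Type) [AddCommGroup V] [Module.Free ℤ V] [Module.Finite ℤ V]
    (F : Fam V) : PObj := PObj.ofSub V F (trF F) (subF F)

theorem FHom.comp {F : Fam V} {G : Fam W} {K : Fam U} {f : V →ₗ[ℤ] W} {g : W →ₗ[ℤ] U}
    (hf : FHom F G f) (hg : FHom G K g) : FHom F K (g ∘ₗ f) := by
  intro p x hx
  rw [LinearMap.baseChange_comp]
  exact hg p _ (hf p x hx)

/-- The sum family. -/
noncomputable def sumFam (F : Fam V) (G : Fam W) : Fam (V × W) := fun p =>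
  (F p).comap ((LinearMap.fst ℤ V W).baseChange ℂ) ⊓
    (G p).comap ((LinearMap.snd ℤ V W).baseChange ℂ)

theorem fhom_fst (F : Fam V) (G : Fam W) : FHom (sumFam F G) F (LinearMap.fst ℤ V W) :=
  fun _ _ hx => hx.1

theorem fhom_snd (F : Fam V) (G : Fam W) : FHom (sumFam F G) G (LinearMap.snd ℤ V W) :=
  fun _ _ hx => hx.2

theorem fhom_inl (F : Fam V) (G : Fam W) : FHom F (sumFam F G) (LinearMap.inl ℤ V W) := by
  intro p x hx
  refine ⟨?_, ?_⟩
  · show (LinearMap.fst ℤ V W).baseChange ℂ ((LinearMap.inl ℤ V W).baseChange ℂ x) ∈ F p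
    rw [← LinearMap.comp_apply, ← LinearMap.baseChange_comp, LinearMap.fst_comp_inl,
      LinearMap.baseChange_id]
    exact hx
  · show (LinearMap.snd ℤ V W).baseChange ℂ ((LinearMap.inl ℤ V W).baseChange ℂ x) ∈ G p
    rw [← LinearMap.comp_apply, ← LinearMap.baseChange_comp, LinearMap.snd_comp_inl,
      LinearMap.baseChange_zero]
    exact Submodule.zero_mem _

theorem fhom_inr (F : Fam V) (G : Fam W) : FHom G (sumFam F G) (LinearMap.inr ℤ V W) := by
  intro p x hx
  refine ⟨?_, ?_⟩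
  · show (LinearMap.fst ℤ V W).baseChange ℂ ((LinearMap.inr ℤ V W).baseChange ℂ x) ∈ F p
    rw [← LinearMap.comp_apply, ← LinearMap.baseChange_comp, LinearMap.fst_comp_inr,
      LinearMap.baseChange_zero]
    exact Submodule.zero_mem _
  · show (LinearMap.snd ℤ V W).baseChange ℂ ((LinearMap.inr ℤ V W).baseChange ℂ x) ∈ G p
    rw [← LinearMap.comp_apply, ← LinearMap.baseChange_comp, LinearMap.snd_comp_inr,
      LinearMap.baseChange_id]
    exact hx

variable [Module.Free ℤ V] [Module.Finite ℤ V] [Module.Free ℤ W] [Module.Finite ℤ W]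
  [Module.Free ℤ U] [Module.Finite ℤ U]

/-- The functor on morphisms. -/
noncomputable def PObj.map {F : Fam V} {G : Fam W} (f : V →ₗ[ℤ] W) (hf : FHom F G f) :
    PObj.of V F ⟶ PObj.of W G :=
  ⟨f.restrict (p := trF F) (q := trF G) (fun _ hv => trF_map hf hv), by
    refine ⟨?_, ?_⟩
    · intro p x hx
      show ((trF G).subtype.baseChange ℂ) ((f.restrict _).baseChange ℂ x) ∈ G p
      have h1 : ((trF G).subtype.baseChange ℂ) ((f.restrict (p := trF F) (q := trF G)
          (fun _ hv => trF_map hf hv)).baseChange ℂ x)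
          = f.baseChange ℂ ((trF F).subtype.baseChange ℂ x) := by
        rw [← LinearMap.comp_apply, ← LinearMap.comp_apply, ← LinearMap.baseChange_comp,
          ← LinearMap.baseChange_comp]
        rfl
      rw [h1]
      exact hf p _ hx
    · intro k x hx
      exact subF_map hf hx⟩

/-- A stable isomorphism gives the matrix data in the category. -/
noncomputable def matIso {F : Fam V} {G : Fam W} {K : Fam U} (g : (V × U) ≃ₗ[ℤ] (W × U))
    (h1 : FHom (sumFam F K) (sumFam G K) g.toLinearMap)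
    (h2 : FHom (sumFam G K) (sumFam F K) g.symm.toLinearMap) :
    MatIso (PObj.of V F) (PObj.of W G) (PObj.of U K) where
  a := PObj.map (LinearMap.fst ℤ W U ∘ₗ g.toLinearMap ∘ₗ LinearMap.inl ℤ V U)
    (((fhom_inl F K).comp h1).comp (fhom_fst G K))
  b := PObj.map (LinearMap.fst ℤ W U ∘ₗ g.toLinearMap ∘ₗ LinearMap.inr ℤ V U)
    (((fhom_inr F K).comp h1).comp (fhom_fst G K))
  c := PObj.map (LinearMap.snd ℤ W U ∘ₗ g.toLinearMap ∘ₗ LinearMap.inl ℤ V U)
    (((fhom_inl F K).comp h1).comp (fhom_snd G K))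
  d := PObj.map (LinearMap.snd ℤ W U ∘ₗ g.toLinearMap ∘ₗ LinearMap.inr ℤ V U)
    (((fhom_inr F K).comp h1).comp (fhom_snd G K))
  a' := PObj.map (LinearMap.fst ℤ V U ∘ₗ g.symm.toLinearMap ∘ₗ LinearMap.inl ℤ W U)
    (((fhom_inl G K).comp h2).comp (fhom_fst F K))
  b' := PObj.map (LinearMap.fst ℤ V U ∘ₗ g.symm.toLinearMap ∘ₗ LinearMap.inr ℤ W U)
    (((fhom_inr G K).comp h2).comp (fhom_fst F K))
  c' := PObj.map (LinearMap.snd ℤ V U ∘ₗ g.symm.toLinearMap ∘ₗ LinearMap.inl ℤ W U)
    (((fhom_inl G K).comp h2).comp (fhom_snd F K))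
  d' := PObj.map (LinearMap.snd ℤ V U ∘ₗ g.symm.toLinearMap ∘ₗ LinearMap.inr ℤ W U)
    (((fhom_inr G K).comp h2).comp (fhom_snd F K))
  h11 := by
    apply PObj.hom_ext
    apply LinearMap.ext
    intro (x : trF F)
    apply Subtype.ext
    show (g.symm ((g ((x : V), (0 : U))).1, 0)).1 + (g.symm (0, (g ((x : V), (0 : U))).2)).1
      = (x : V)
    rw [← Prod.fst_add, ← map_add]
    simp
  h12 := by
    apply PObj.hom_ext
    apply LinearMap.ext
    intro (x : trF F)
    apply Subtype.ext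
    show (g.symm ((g ((x : V), (0 : U))).1, 0)).2 + (g.symm (0, (g ((x : V), (0 : U))).2)).2
      = 0
    rw [← Prod.snd_add, ← map_add]
    simp
  h21 := by
    apply PObj.hom_ext
    apply LinearMap.ext
    intro (x : trF K)
    apply Subtype.ext
    show (g.symm ((g (0, (x : U))).1, 0)).1 +
      (g.symm (0, (g (0, (x : U))).2)).1 = 0
    rw [← Prod.fst_add, ← map_add]
    simp
  h22 := by
    apply PObj.hom_ext
    apply LinearMap.ext
    intro (x : trF K)
    apply Subtype.ext
    show (g.symm ((g (0, (x : U))).1, 0)).2 +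
      (g.symm (0, (g (0, (x : U))).2)).2 = (x : U)
    rw [← Prod.snd_add, ← map_add]
    simp
  k11 := by
    apply PObj.hom_ext
    apply LinearMap.ext
    intro (x : trF G)
    apply Subtype.ext
    show (g ((g.symm ((x : W), (0 : U))).1, 0)).1 + (g (0, (g.symm ((x : W), (0 : U))).2)).1
      = (x : W)
    rw [← Prod.fst_add, ← map_add]
    simp
  k12 := by
    apply PObj.hom_ext
    apply LinearMap.ext
    intro (x : trF G)
    apply Subtype.ext
    show (g ((g.symm ((x : W), (0 : U))).1, 0)).2 + (g (0, (g.symm ((x : W), (0 : U))).2)).2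
      = 0
    rw [← Prod.snd_add, ← map_add]
    simp
  k21 := by
    apply PObj.hom_ext
    apply LinearMap.ext
    intro (x : trF K)
    apply Subtype.ext
    show (g ((g.symm (0, (x : U))).1, 0)).1 +
      (g (0, (g.symm (0, (x : U))).2)).1 = 0
    rw [← Prod.fst_add, ← map_add]
    simp
  k22 := by
    apply PObj.hom_ext
    apply LinearMap.ext
    intro (x : trF K)
    apply Subtype.ext
    show (g ((g.symm (0, (x : U))).1, 0)).2 +
      (g (0, (g.symm (0, (x : U))).2)).2 = (x : U)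
    rw [← Prod.snd_add, ← map_add]
    simp

end functor

end H91.VF
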